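import Pool.Agent.K3h99.AF.Ext
import Pool.Agent.H495R3.CySat2

/-!
# The constructions for `t = 4` and `t = 5`

The vertices have a level `v / n` and an element `v % n`.
-/

set_option autoImplicit false

namespace Pool.Agent.K3h99.AF

open Pool.Agent.H495R3.Cy

/-- all copies of the element `x` -/
def fib (n K x : ℕ) : List ℕ := (List.range (K * n)).filter fun v => decide (v % n = x)

/-- all copies of the other elements -/
def cof (n K x : ℕ) : List ℕ := (List.range (K * n)).filter fun v => !decide (v % n = x)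

/-- all vertices of level less than `j`, and the copies of the members of `F` on level `j` -/
def gad (n K j : ℕ) (F : List ℕ) : List ℕ :=
  (List.range (K * n)).filter fun v => decide (v / n < j) || (decide (v / n = j) && decide (v % n ∈ F))

variable {n K : ℕ}

theorem mem_fib {x v : ℕ} : v ∈ fib n K x ↔ v < K * n ∧ v % n = x := by
  simp [fib]

theorem mem_cof {x v : ℕ} : v ∈ cof n K x ↔ v < K * n ∧ v % n ≠ x := by
  simp [cof]

theorem mem_gad {j v : ℕ} {F : List ℕ} : v ∈ gad n K j F ↔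
    v < K * n ∧ (v / n < j ∨ (v / n = j ∧ v % n ∈ F)) := by
  simp [gad]

/-- the position of a vertex -/
def pos (n K : ℕ) (g : ℕ → ℤ) (v : ℕ) : ℤ := g (v % n) * K + (v / n : ℕ)

theorem div_lt_of {v : ℕ} (h : v < K * n) : v / n < K := by
  rcases Nat.eq_zero_or_pos n with rfl | hn
  · simp at h
  · exact (Nat.div_lt_iff_lt_mul hn).2 h

theorem mod_lt_of {v : ℕ} (h : v < K * n) : v % n < n := by
  rcases Nat.eq_zero_or_pos n with rfl | hn
  · simp at h
  · exact Nat.mod_lt _ hn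

theorem pos_lt {g : ℕ → ℤ} {u v : ℕ} (hu : u < K * n) (hv : v < K * n)
    (h : g (u % n) < g (v % n)) : pos n K g u < pos n K g v := by
  unfold pos
  have h1 := div_lt_of hu
  have h2 : (g (u % n) + 1) * K ≤ g (v % n) * K := mul_le_mul_of_nonneg_right (by omega) (by omega)
  rw [add_mul, one_mul] at h2
  have h3 : (0 : ℤ) ≤ ((v / n : ℕ) : ℤ) := Int.natCast_nonneg _
  have h4 : ((u / n : ℕ) : ℤ) < (K : ℤ) := by exact_mod_cast h1
  linarith

theorem pos_le {g : ℕ → ℤ} {u v : ℕ} (hu : u < K * n) (hv : v < K * n)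
    (h : pos n K g u < pos n K g v) : g (u % n) ≤ g (v % n) := by
  by_contra hcon
  have := pos_lt (K := K) hv hu (not_le.1 hcon)
  omega

theorem pos_injOn {g : ℕ → ℤ} (hg : Set.InjOn g {x | x < n}) :
    Set.InjOn (pos n K g) {v | v ∈ List.range (K * n)} := by
  intro u hu v hv huv
  have hu : u < K * n := List.mem_range.1 hu
  have hv : v < K * n := List.mem_range.1 hv
  have h1 : g (u % n) = g (v % n) := by
    rcases lt_trichotomy (g (u % n)) (g (v % n)) with h | h | h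
    · have := pos_lt (K := K) hu hv h; omega
    · exact h
    · have := pos_lt (K := K) hv hu h; omega
  have h2 : u % n = v % n := hg (mod_lt_of hu) (mod_lt_of hv) h1
  unfold pos at huv
  rw [h1] at huv
  have h3 : u / n = v / n := by omega
  rw [← Nat.div_add_mod u n, ← Nat.div_add_mod v n, h2, h3]

/-- the copies of an element are contiguous -/
theorem conv {g : ℕ → ℤ} (hg : Set.InjOn g {x | x < n}) {u v w : ℕ} (hu : u < K * n)
    (hv : v < K * n) (hw : w < K * n) (huw : u % n = w % n) (h1 : pos n K g u < pos n K g v)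
    (h2 : pos n K g v < pos n K g w) : v % n = u % n := by
  have h3 := pos_le hu hv h1
  have h4 := pos_le hv hw h2
  rw [← huw] at h4
  exact hg (mod_lt_of hv) (mod_lt_of hu) (le_antisymm h4 h3)

/-- on one level the order is that of the elements -/
theorem lt_of_level {g : ℕ → ℤ} {u v : ℕ} (hu : u < K * n)
    (hv : v < K * n) (huv : u / n = v / n) (h : pos n K g u < pos n K g v) :
    g (u % n) < g (v % n) := by
  rcases (pos_le hu hv h).lt_or_eq with h1 | h1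
  · exact h1
  · exfalso
    unfold pos at h
    rw [h1, huv] at h
    exact lt_irrefl _ h

/-! ### Four and five elements -/

theorem forms4 {V A B : List ℕ} {f : ℕ → ℤ} {a b c d : ℕ} (ha : a ∈ V) (hb : b ∈ V) (hc : c ∈ V)
    (hd : d ∈ V) (h1 : f a < f b) (h2 : f b < f c) (h3 : f c < f d) (a1 : a ∈ A ∧ a ∉ B)
    (b1 : b ∈ B ∧ b ∉ A) (c1 : c ∈ A ∧ c ∉ B) (d1 : d ∈ B ∧ d ∉ A) : Forms 4 V f A B := by
  refine ⟨![a, b, c, d], ?_, ?_, ?_, ?_⟩
  · intro i; fin_cases i <;> assumption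
  · intro i j hij
    fin_cases i <;> fin_cases j <;> simp [Fin.lt_def] at hij ⊢ <;> omega
  · intro i hi
    fin_cases i <;> simp at hi ⊢ <;> assumption
  · intro i hi
    fin_cases i <;> simp at hi ⊢ <;> assumption

theorem forms5 {V A B : List ℕ} {f : ℕ → ℤ} {a b c d e : ℕ} (ha : a ∈ V) (hb : b ∈ V) (hc : c ∈ V)
    (hd : d ∈ V) (he : e ∈ V) (h1 : f a < f b) (h2 : f b < f c) (h3 : f c < f d) (h4 : f d < f e)
    (a1 : a ∈ A ∧ a ∉ B) (b1 : b ∈ B ∧ b ∉ A) (c1 : c ∈ A ∧ c ∉ B) (d1 : d ∈ B ∧ d ∉ A)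
    (e1 : e ∈ A ∧ e ∉ B) : Forms 5 V f A B := by
  refine ⟨![a, b, c, d, e], ?_, ?_, ?_, ?_⟩
  · intro i; fin_cases i <;> assumption
  · intro i j hij
    fin_cases i <;> fin_cases j <;> simp [Fin.lt_def] at hij ⊢ <;> omega
  · intro i hi
    fin_cases i <;> simp at hi ⊢ <;> assumption
  · intro i hi
    fin_cases i <;> simp at hi ⊢ <;> assumption

theorem forms3 {V A B : List ℕ} {f : ℕ → ℤ} {a b c : ℕ} (ha : a ∈ V) (hb : b ∈ V) (hc : c ∈ V)
    (h1 : f a < f b) (h2 : f b < f c) (a1 : a ∈ A ∧ a ∉ B)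
    (b1 : b ∈ B ∧ b ∉ A) (c1 : c ∈ A ∧ c ∉ B) : Forms 3 V f A B := by
  refine ⟨![a, b, c], ?_, ?_, ?_, ?_⟩
  · intro i; fin_cases i <;> assumption
  · intro i j hij
    fin_cases i <;> fin_cases j <;> simp [Fin.lt_def] at hij ⊢ <;> omega
  · intro i hi
    fin_cases i <;> simp at hi ⊢ <;> assumption
  · intro i hi
    fin_cases i <;> simp at hi ⊢ <;> assumption

theorem nonsep_of_not_forms {V A B : List ℕ} {f : ℕ → ℤ} (hf : Set.InjOn f {v | v ∈ V})
    (h1 : ¬ Forms 4 V f A B) (h2 : ¬ Forms 4 V f B A) {a a' b b' : ℕ} (ha : a ∈ V) (ha' : a' ∈ V)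
    (hb : b ∈ V) (hb' : b' ∈ V) (a1 : a ∈ A ∧ a ∉ B) (a2 : a' ∈ A ∧ a' ∉ B) (b1 : b ∈ B ∧ b ∉ A)
    (b2 : b' ∈ B ∧ b' ∉ A) : NonSep f a a' b b' := by
  have n1 : f a ≠ f b := fun h => a1.2 ((hf ha hb h) ▸ b1.1)
  have n2 : f a ≠ f b' := fun h => a1.2 ((hf ha hb' h) ▸ b2.1)
  have n3 : f a' ≠ f b := fun h => a2.2 ((hf ha' hb h) ▸ b1.1)
  have n4 : f a' ≠ f b' := fun h => a2.2 ((hf ha' hb' h) ▸ b2.1)
  by_contra hcon
  unfold NonSep H495R3.Cy.Btw at hcon
  by_cases e1 : (f a < f b ∧ f b < f a') ∨ (f a' < f b ∧ f b < f a)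
  · have e2 : ¬ ((f a < f b' ∧ f b' < f a') ∨ (f a' < f b' ∧ f b' < f a)) := by tauto
    rcases e1 with e1 | e1
    · rcases lt_or_gt_of_ne n2 with h | h
      · exact h1 (forms4 ha hb ha' hb' e1.1 e1.2 (by omega) a1 b1 a2 b2)
      · exact h2 (forms4 hb' ha hb ha' h e1.1 e1.2 b2 a1 b1 a2)
    · rcases lt_or_gt_of_ne n4 with h | h
      · exact h1 (forms4 ha' hb ha hb' e1.1 e1.2 (by omega) a2 b1 a1 b2)
      · exact h2 (forms4 hb' ha' hb ha h e1.1 e1.2 b2 a2 b1 a1)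
  · have e2 : (f a < f b' ∧ f b' < f a') ∨ (f a' < f b' ∧ f b' < f a) := by tauto
    rcases e2 with e2 | e2
    · rcases lt_or_gt_of_ne n1 with h | h
      · exact h1 (forms4 ha hb' ha' hb e2.1 e2.2 (by omega) a1 b2 a2 b1)
      · exact h2 (forms4 hb ha hb' ha' h e2.1 e2.2 b1 a1 b2 a2)
    · rcases lt_or_gt_of_ne n3 with h | h
      · exact h1 (forms4 ha' hb' ha hb e2.1 e2.2 (by omega) a2 b2 a1 b1)
      · exact h2 (forms4 hb ha' hb' ha h e2.1 e2.2 b1 a2 b2 a1)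

/-! ### The case `t = 4` -/

/-- The hypergraph for `t = 4`. -/
def hyp4 (n : ℕ) (Q : List Quad) : Hyp :=
  (List.range ((Q.length + 1) * n),
    (List.range n).map (fun x => fib n (Q.length + 1) x) ++
    ((List.range n).map (fun x => cof n (Q.length + 1) x) ++
    (Q.zipIdx.map (fun p => gad n (Q.length + 1) p.2 [p.1.1, p.1.2.2.1]) ++
    Q.zipIdx.map (fun p => gad n (Q.length + 1) p.2 [p.1.2.1, p.1.2.2.2]))))

theorem mem_hyp4 {Q : List Quad} {X : List ℕ} : X ∈ (hyp4 n Q).2 ↔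
    (∃ x < n, X = fib n (Q.length + 1) x) ∨ (∃ x < n, X = cof n (Q.length + 1) x) ∨
    (∃ q j, Q[j]? = some q ∧ X = gad n (Q.length + 1) j [q.1, q.2.2.1]) ∨
    (∃ q j, Q[j]? = some q ∧ X = gad n (Q.length + 1) j [q.2.1, q.2.2.2]) := by
  unfold hyp4
  simp only [List.mem_append, List.mem_map, List.mem_range, Prod.exists,
    List.mem_zipIdx_iff_getElem?]
  constructor
  · rintro (⟨x, h, rfl⟩ | ⟨x, h, rfl⟩ | ⟨a, b, c, d, j, h, rfl⟩ | ⟨a, b, c, d, j, h, rfl⟩)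
    · exact Or.inl ⟨x, h, rfl⟩
    · exact Or.inr (Or.inl ⟨x, h, rfl⟩)
    · exact Or.inr (Or.inr (Or.inl ⟨_, _, _, _, j, h, rfl⟩))
    · exact Or.inr (Or.inr (Or.inr ⟨_, _, _, _, j, h, rfl⟩))
  · rintro (⟨x, h, rfl⟩ | ⟨x, h, rfl⟩ | ⟨a, b, c, d, j, h, rfl⟩ | ⟨a, b, c, d, j, h, rfl⟩)
    · exact Or.inl ⟨x, h, rfl⟩
    · exact Or.inr (Or.inl ⟨x, h, rfl⟩)
    · exact Or.inr (Or.inr (Or.inl ⟨_, _, _, _, j, h, rfl⟩))
    · exact Or.inr (Or.inr (Or.inr ⟨_, _, _, _, j, h, rfl⟩))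

theorem isHyp4 (Q : List Quad) : IsHyp (hyp4 n Q) := by
  intro e he v hv
  show v ∈ List.range _
  rw [List.mem_range]
  rcases mem_hyp4.1 he with ⟨x, _, rfl⟩ | ⟨x, _, rfl⟩ | ⟨q, j, _, rfl⟩ | ⟨q, j, _, rfl⟩
  · exact (mem_fib.1 hv).1
  · exact (mem_cof.1 hv).1
  · exact (mem_gad.1 hv).1
  · exact (mem_gad.1 hv).1

/-- the two gadget sets of one level -/
theorem gad_diff {j v : ℕ} {F F' : List ℕ} (h : v ∈ gad n K j F) (h' : v ∉ gad n K j F') :
    v < K * n ∧ v / n = j ∧ v % n ∈ F := by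
  rw [mem_gad] at h h'
  refine ⟨h.1, ?_⟩
  rcases h.2 with h2 | h2
  · exact absurd ⟨h.1, Or.inl h2⟩ h'
  · exact h2

theorem gad_sub {i j v : ℕ} {F F' : List ℕ} (hij : i < j) (h : v ∈ gad n K i F) :
    v ∈ gad n K j F' := by
  rw [mem_gad] at h ⊢
  exact ⟨h.1, Or.inl (by omega)⟩

theorem complete4 {Q : List Quad} {g : ℕ → ℤ} (hg : Set.InjOn g {x | x < n})
    (hs : ∀ q ∈ Q, NonSep g q.1 q.2.2.1 q.2.1 q.2.2.2) : AltFree 4 (hyp4 n Q) := by
  refine ⟨isHyp4 Q, pos n (Q.length + 1) g, pos_injOn hg, ?_⟩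
  intro X hX Y hY hform
  obtain ⟨s, hsV, hmono, he, ho⟩ := hform
  have hV : ∀ i, s i < (Q.length + 1) * n := fun i => List.mem_range.1 (hsV i)
  obtain ⟨a, ha⟩ : ∃ a, s 0 = a := ⟨_, rfl⟩
  obtain ⟨b, hb⟩ : ∃ a, s 1 = a := ⟨_, rfl⟩
  obtain ⟨a', ha'⟩ : ∃ a, s 2 = a := ⟨_, rfl⟩
  obtain ⟨b', hb'⟩ : ∃ a, s 3 = a := ⟨_, rfl⟩
  have v1 := hV 0; have v2 := hV 1; have v3 := hV 2; have v4 := hV 3
  have l1 := hmono 0 1 (by decide)
  have l2 := hmono 1 2 (by decide)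
  have l3 := hmono 2 3 (by decide)
  have m1 := he 0 (by decide)
  have m2 := ho 1 (by decide)
  have m3 := he 2 (by decide)
  have m4 := ho 3 (by decide)
  rw [ha] at v1 l1 m1
  rw [hb] at v2 l1 l2 m2
  rw [ha'] at v3 l2 l3 m3
  rw [hb'] at v4 l3 m4
  have gadcase : ∀ (q q' : Quad) (i j : ℕ) (F F' : List ℕ), Q[i]? = some q → Q[j]? = some q' →
      X = gad n (Q.length + 1) i F → Y = gad n (Q.length + 1) j F' →
      i = j ∧ q = q' ∧ (g (a % n) < g (b % n) ∧ g (b % n) < g (a' % n) ∧ g (a' % n) < g (b' % n)) ∧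
        a % n ∈ F ∧ a' % n ∈ F ∧ b % n ∈ F' ∧ b' % n ∈ F' := by
    intro q q' i j F F' hq hq' hX hY
    subst hX hY
    rcases lt_trichotomy i j with h | h | h
    · exact absurd (gad_sub h m1.1) m1.2
    · subst h
      rw [hq] at hq'
      have d1 := gad_diff m1.1 m1.2
      have d2 := gad_diff m2.1 m2.2
      have d3 := gad_diff m3.1 m3.2
      have d4 := gad_diff m4.1 m4.2
      exact ⟨rfl, Option.some.inj hq',
        ⟨lt_of_level v1 v2 (d1.2.1.trans d2.2.1.symm) l1,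
          lt_of_level v2 v3 (d2.2.1.trans d3.2.1.symm) l2,
          lt_of_level v3 v4 (d3.2.1.trans d4.2.1.symm) l3⟩, d1.2.2, d3.2.2, d2.2.2, d4.2.2⟩
    · exact absurd (gad_sub h m2.1) m2.2
  rcases mem_hyp4.1 hX with ⟨x, _, rfl⟩ | ⟨x, _, rfl⟩ | hX'
  · have e1 := (mem_fib.1 m1.1).2
    have e2 := (mem_fib.1 m3.1).2
    have := conv hg v1 v2 v3 (e1.trans e2.symm) l1 l2
    exact m2.2 (mem_fib.2 ⟨v2, this.trans e1⟩)
  · have e1 : b % n = x := by
      by_contra h; exact m2.2 (mem_cof.2 ⟨v2, h⟩)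
    have e2 : b' % n = x := by
      by_contra h; exact m4.2 (mem_cof.2 ⟨v4, h⟩)
    have := conv hg v2 v3 v4 (e1.trans e2.symm) l2 l3
    exact (mem_cof.1 m3.1).2 (this.trans e1)
  · rcases mem_hyp4.1 hY with ⟨y, _, rfl⟩ | ⟨y, _, rfl⟩ | hY'
    · have e1 := (mem_fib.1 m2.1).2
      have e2 := (mem_fib.1 m4.1).2
      have := conv hg v2 v3 v4 (e1.trans e2.symm) l2 l3
      exact m3.2 (mem_fib.2 ⟨v3, this.trans e1⟩)
    · have e1 : a % n = y := by
        by_contra h; exact m1.2 (mem_cof.2 ⟨v1, h⟩)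
      have e2 : a' % n = y := by
        by_contra h; exact m3.2 (mem_cof.2 ⟨v3, h⟩)
      have := conv hg v1 v2 v3 (e1.trans e2.symm) l1 l2
      exact (mem_cof.1 m2.1).2 (this.trans e1)
    · rcases hX' with ⟨q, i, hq, hX⟩ | ⟨q, i, hq, hX⟩ <;>
        rcases hY' with ⟨q', j, hq', hY⟩ | ⟨q', j, hq', hY⟩
      · obtain ⟨rfl, rfl, _⟩ := gadcase q q' i j _ _ hq hq' hX hY
        subst hX hY
        exact m1.2 m1.1
      · obtain ⟨rfl, rfl, ⟨g1, g2, g3⟩, f1, f2, f3, f4⟩ := gadcase q q' i j _ _ hq hq' hX hY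
        have hN := hs q (List.mem_of_getElem? hq)
        simp only [List.mem_cons, List.not_mem_nil, or_false] at f1 f2 f3 f4
        unfold NonSep H495R3.Cy.Btw at hN
        rcases f1 with f1 | f1 <;> rcases f2 with f2 | f2 <;> rcases f3 with f3 | f3 <;>
          rcases f4 with f4 | f4 <;> rw [f1, f3] at g1 <;> rw [f3, f2] at g2 <;>
          rw [f2, f4] at g3 <;> omega
      · obtain ⟨rfl, rfl, ⟨g1, g2, g3⟩, f1, f2, f3, f4⟩ := gadcase q q' i j _ _ hq hq' hX hY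
        have hN := hs q (List.mem_of_getElem? hq)
        simp only [List.mem_cons, List.not_mem_nil, or_false] at f1 f2 f3 f4
        unfold NonSep H495R3.Cy.Btw at hN
        rcases f1 with f1 | f1 <;> rcases f2 with f2 | f2 <;> rcases f3 with f3 | f3 <;>
          rcases f4 with f4 | f4 <;> rw [f1, f3] at g1 <;> rw [f3, f2] at g2 <;>
          rw [f2, f4] at g3 <;> omega
      · obtain ⟨rfl, rfl, _⟩ := gadcase q q' i j _ _ hq hq' hX hY
        subst hX hY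
        exact m1.2 m1.1

/-- copy of `x` on level `j` -/
theorem copy_lt {j x : ℕ} (hj : j < K) (hx : x < n) : j * n + x < K * n := by
  have : (j + 1) * n ≤ K * n := Nat.mul_le_mul_right n hj
  rw [add_mul, one_mul] at this
  omega

theorem copy_mod {j x : ℕ} (hx : x < n) : (j * n + x) % n = x := by
  rw [Nat.mul_comm, Nat.mul_add_mod, Nat.mod_eq_of_lt hx]

theorem copy_div {j x : ℕ} (hx : x < n) : (j * n + x) / n = j := by
  rw [Nat.mul_comm, Nat.mul_add_div (by omega), Nat.div_eq_of_lt hx, add_zero]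

theorem sound4 {Q : List Quad} (hQ : QOk (List.range n) Q) (h : AltFree 4 (hyp4 n Q)) :
    Solv (List.range n) Q := by
  obtain ⟨-, f, hf, hfree⟩ := h
  have hV : ∀ {v}, v < (Q.length + 1) * n → v ∈ (hyp4 n Q).1 := fun h => List.mem_range.2 h
  -- contiguity
  have hc : ∀ {p p' q q' : ℕ}, p < (Q.length + 1) * n → p' < (Q.length + 1) * n →
      q < (Q.length + 1) * n → q' < (Q.length + 1) * n → p % n = p' % n → q % n ≠ p % n →
      q' % n ≠ p % n → NonSep f p p' q q' := by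
    intro p p' q q' hp hp' hq hq' e1 e2 e3
    have hx : p % n < n := mod_lt_of hp
    have m1 : fib n (Q.length + 1) (p % n) ∈ (hyp4 n Q).2 := mem_hyp4.2 (Or.inl ⟨_, hx, rfl⟩)
    have m2 : cof n (Q.length + 1) (p % n) ∈ (hyp4 n Q).2 :=
      mem_hyp4.2 (Or.inr (Or.inl ⟨_, hx, rfl⟩))
    exact nonsep_of_not_forms hf (hfree _ m1 _ m2) (hfree _ m2 _ m1) (hV hp) (hV hp') (hV hq)
      (hV hq') ⟨mem_fib.2 ⟨hp, rfl⟩, fun h => (mem_cof.1 h).2 rfl⟩
      ⟨mem_fib.2 ⟨hp', e1.symm⟩, fun h => (mem_cof.1 h).2 e1.symm⟩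
      ⟨mem_cof.2 ⟨hq, e2⟩, fun h => e2 (mem_fib.1 h).2⟩
      ⟨mem_cof.2 ⟨hq', e3⟩, fun h => e3 (mem_fib.1 h).2⟩
  have hle : n ≤ (Q.length + 1) * n := Nat.le_mul_of_pos_left n (by omega)
  refine ⟨f, ?_, ?_⟩
  · intro x hx y hy hxy
    have hx : x < n := List.mem_range.1 hx
    have hy : y < n := List.mem_range.1 hy
    exact hf (hV (by omega)) (hV (by omega)) hxy
  · intro q hq
    obtain ⟨j, hj, hqj⟩ := List.mem_iff_getElem.1 hq
    have hqj' : Q[j]? = some q := by rw [List.getElem?_eq_getElem hj, hqj]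
    obtain ⟨r1, r2, r3, r4, n1, n2, n3, n4, n5, n6⟩ := hQ q hq
    rw [List.mem_range] at r1 r2 r3 r4
    have m1 : gad n (Q.length + 1) j [q.1, q.2.2.1] ∈ (hyp4 n Q).2 :=
      mem_hyp4.2 (Or.inr (Or.inr (Or.inl ⟨q, j, hqj', rfl⟩)))
    have m2 : gad n (Q.length + 1) j [q.2.1, q.2.2.2] ∈ (hyp4 n Q).2 :=
      mem_hyp4.2 (Or.inr (Or.inr (Or.inr ⟨q, j, hqj', rfl⟩)))
    have hjK : j < Q.length + 1 := by omega
    have in1 : ∀ {x : ℕ} {F F' : List ℕ}, x < n → x ∈ F → x ∉ F' →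
        j * n + x ∈ gad n (Q.length + 1) j F ∧ j * n + x ∉ gad n (Q.length + 1) j F' := by
      intro x F F' hx h1 h2
      rw [mem_gad, mem_gad, copy_mod hx, copy_div hx]
      refine ⟨⟨copy_lt hjK hx, Or.inr ⟨rfl, h1⟩⟩, ?_⟩
      rintro ⟨_, h | h⟩
      · omega
      · exact h2 h.2
    have N1 : NonSep f (j * n + q.1) (j * n + q.2.2.1) (j * n + q.2.1) (j * n + q.2.2.2) := by
      refine nonsep_of_not_forms hf (hfree _ m1 _ m2) (hfree _ m2 _ m1) (hV (copy_lt hjK r1))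
        (hV (copy_lt hjK r3)) (hV (copy_lt hjK r2)) (hV (copy_lt hjK r4)) (in1 r1 ?_ ?_)
        (in1 r3 ?_ ?_) (in1 r2 ?_ ?_) (in1 r4 ?_ ?_) <;> simp <;> tauto
    -- distinct positions
    have hne : ∀ {i k x y : ℕ}, i < Q.length + 1 → k < Q.length + 1 → x < n → y < n → x ≠ y →
        f (i * n + x) ≠ f (k * n + y) := by
      intro i k x y hi hk hx hy hxy h
      have h1 := hf (hV (copy_lt hi hx)) (hV (copy_lt hk hy)) h
      have h2 := congrArg (· % n) h1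
      simp only [copy_mod hx, copy_mod hy] at h2
      exact hxy h2
    -- the copies of one element
    have same : ∀ {i k i' k' x y z : ℕ}, i < Q.length + 1 → k < Q.length + 1 → i' < Q.length + 1 →
        k' < Q.length + 1 → x < n → y < n → z < n → y ≠ x → z ≠ x →
        NonSep f (i' * n + y) (k' * n + z) (i * n + x) (k * n + x) := by
      intro i k i' k' x y z hi hk hi' hk' hx hy hz hyx hzx
      refine NonSep.symm (hne hi hi' hx hy hyx.symm) (hne hi hk' hx hz hzx.symm)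
        (hne hk hi' hx hy hyx.symm) (hne hk hk' hx hz hzx.symm) ?_
      refine hc (copy_lt hi hx) (copy_lt hk hx) (copy_lt hi' hy) (copy_lt hk' hz) ?_ ?_ ?_
      · rw [copy_mod hx, copy_mod hx]
      · rw [copy_mod hx, copy_mod hy]; exact hyx
      · rw [copy_mod hx, copy_mod hz]; exact hzx
    have h0 : (0 : ℕ) < Q.length + 1 := by omega
    have N2 : NonSep f (j * n + q.1) (j * n + q.2.2.1) (0 * n + q.2.1) (0 * n + q.2.2.2) :=
      ((same h0 hjK hjK hjK r2 r1 r3 n1 n4.symm).trans N1).trans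
        (same hjK h0 hjK hjK r4 r1 r3 n3 n6)
    have N3 : NonSep f (0 * n + q.2.1) (0 * n + q.2.2.2) (j * n + q.1) (j * n + q.2.2.1) :=
      NonSep.symm (hne hjK h0 r1 r2 n1) (hne hjK h0 r1 r4 n3) (hne hjK h0 r3 r2 n4.symm)
        (hne hjK h0 r3 r4 n6) N2
    have N4 : NonSep f (0 * n + q.2.1) (0 * n + q.2.2.2) (0 * n + q.1) (0 * n + q.2.2.1) :=
      ((same h0 hjK h0 h0 r1 r2 r4 n1.symm n3.symm).trans N3).trans
        (same hjK h0 h0 h0 r3 r2 r4 n4 n6.symm)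
    have N5 : NonSep f (0 * n + q.1) (0 * n + q.2.2.1) (0 * n + q.2.1) (0 * n + q.2.2.2) :=
      NonSep.symm (hne h0 h0 r2 r1 n1.symm) (hne h0 h0 r2 r3 n4) (hne h0 h0 r4 r1 n3.symm)
        (hne h0 h0 r4 r3 n6.symm) N4
    simpa using N5

end Pool.Agent.K3h99.AF
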