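import Mathlib

/-!
# Alternation-free hypergraphs on an unordered vertex set
-/

set_option autoImplicit false

namespace Pool.Agent.K3h99.AF

/-- A hypergraph, given by the list of its vertices and the list of its hyperedges (every hyperedge
is given by the list of its elements). -/
abbrev Hyp := List ℕ × List (List ℕ)

/-- Every hyperedge is a set of vertices. -/
def IsHyp (H : Hyp) : Prop := ∀ e ∈ H.2, ∀ v ∈ e, v ∈ H.1

/-- The vertices (the members of `V`) are ordered by the values of `f`. The sets `A` and `B` form an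
`(AB)^{t/2}`-sequence: there are vertices `x_0 < x_1 < ⋯ < x_{t-1}` which are alternately in
`A \ B` and in `B \ A`, the first one in `A \ B`. -/
def Forms (t : ℕ) (V : List ℕ) (f : ℕ → ℤ) (A B : List ℕ) : Prop :=
  ∃ x : Fin t → ℕ, (∀ i, x i ∈ V) ∧ (∀ i j, i < j → f (x i) < f (x j)) ∧
    (∀ i : Fin t, i.val % 2 = 0 → x i ∈ A ∧ x i ∉ B) ∧
    (∀ i : Fin t, i.val % 2 = 1 → x i ∈ B ∧ x i ∉ A)

/-- The decision problem: a hypergraph for which some linear order of the vertices (given by a
function `f` which is injective on the vertex set) is such that no two hyperedges form an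
`(AB)^{t/2}`-sequence. -/
def AltFree (t : ℕ) (H : Hyp) : Prop :=
  IsHyp H ∧ ∃ f : ℕ → ℤ, Set.InjOn f {v | v ∈ H.1} ∧
    ∀ A ∈ H.2, ∀ B ∈ H.2, ¬ Forms t H.1 f A B

end Pool.Agent.K3h99.AF
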