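import Pool.Agent.K3h99.AF.Defs

/-!
# From `t` to `t + 2`: jokers
-/

set_option autoImplicit false

namespace Pool.Agent.K3h99.AF

/-- Two elements `z₁`, `z₂` which are not separated by an element of `V` can be inserted into an
alternating sequence. -/
theorem insert_two {t : ℕ} {V V' A B : List ℕ} {f : ℕ → ℤ} {z₁ z₂ : ℕ}
    (hV : ∀ v ∈ V, v ∈ V') (h1 : z₁ ∈ V') (h2 : z₂ ∈ V') (h12 : f z₁ < f z₂)
    (hgap : ∀ v ∈ V, f v < f z₁ ∨ f z₂ < f v)
    (hA1 : z₁ ∉ A) (hA2 : z₂ ∉ A) (hB1 : z₁ ∉ B) (hB2 : z₂ ∉ B)
    (hz1 : z₁ ∉ V) (hz2 : z₂ ∉ V)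
    (h : Forms t V f A B) :
    Forms (t + 2) V' f (z₁ :: A) (z₂ :: B) ∨ Forms (t + 2) V' f (z₂ :: A) (z₁ :: B) := by
  classical
  obtain ⟨x, hx, hmono, he, ho⟩ := h
  -- the number of members of the sequence before the gap
  let k : ℕ := (Finset.univ.filter fun i : Fin t => f (x i) < f z₁).card
  have hk1 : ∀ i : Fin t, i.val < k ↔ f (x i) < f z₁ := by
    intro i
    constructor
    · intro hi
      by_contra hcon
      have hsub : (Finset.univ.filter fun j : Fin t => f (x j) < f z₁) ⊆
          Finset.univ.filter fun j : Fin t => j < i := by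
        intro j hj
        simp only [Finset.mem_filter, Finset.mem_univ, true_and] at hj ⊢
        by_contra hji
        rcases (not_lt.1 hji).eq_or_lt with hji | hji
        · subst hji; exact hcon hj
        · have := hmono _ _ hji
          omega
      have h3 := Finset.card_le_card hsub
      have h4 : (Finset.univ.filter fun j : Fin t => j < i).card = i.val := by
        rw [show (Finset.univ.filter fun j : Fin t => j < i) = Finset.Iio i by ext; simp,
          Fin.card_Iio]
      omega
    · intro hi
      have hsub : (Finset.univ.filter fun j : Fin t => j ≤ i) ⊆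
          Finset.univ.filter fun j : Fin t => f (x j) < f z₁ := by
        intro j hj
        simp only [Finset.mem_filter, Finset.mem_univ, true_and] at hj ⊢
        rcases hj.eq_or_lt with hji | hji
        · subst hji; exact hi
        · have := hmono _ _ hji
          omega
      have h3 := Finset.card_le_card hsub
      have h4 : (Finset.univ.filter fun j : Fin t => j ≤ i).card = i.val + 1 := by
        rw [show (Finset.univ.filter fun j : Fin t => j ≤ i) = Finset.Iic i by ext; simp,
          Fin.card_Iic]
      omega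
  have hkt : k ≤ t := by
    have := Finset.card_filter_le (Finset.univ : Finset (Fin t)) (fun i => f (x i) < f z₁)
    simpa using this
  have hxz1 : ∀ i, x i ≠ z₁ := fun i h => hz1 (h ▸ hx i)
  have hxz2 : ∀ i, x i ≠ z₂ := fun i h => hz2 (h ▸ hx i)
  -- the new sequence
  let y : Fin (t + 2) → ℕ := fun i =>
    if h : i.val < k then x ⟨i.val, by omega⟩ else if h0 : i.val = k then z₁ else
      if h' : i.val = k + 1 then z₂ else x ⟨i.val - 2, by have := i.2; omega⟩
  have hy1 : ∀ (i : Fin (t + 2)) (h : i.val < k), y i = x ⟨i.val, by omega⟩ := by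
    intro i h; simp only [y]; rw [dif_pos h]
  have hy2 : ∀ (i : Fin (t + 2)), i.val = k → y i = z₁ := by
    intro i h; simp only [y]; rw [dif_neg (by omega), dif_pos h]
  have hy3 : ∀ (i : Fin (t + 2)), i.val = k + 1 → y i = z₂ := by
    intro i h; simp only [y]; rw [dif_neg (by omega), dif_neg (by omega), dif_pos h]
  have hy4 : ∀ (i : Fin (t + 2)) (h : k + 2 ≤ i.val), y i = x ⟨i.val - 2, by omega⟩ := by
    intro i h; simp only [y]; rw [dif_neg (by omega), dif_neg (by omega), dif_neg (by omega)]
  have hyV : ∀ i, y i ∈ V' := by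
    intro i
    rcases lt_or_ge i.val k with h | h
    · rw [hy1 i h]; exact hV _ (hx _)
    · rcases Nat.lt_or_ge i.val (k + 2) with h' | h'
      · rcases (show i.val = k ∨ i.val = k + 1 by omega) with h'' | h''
        · rw [hy2 i h'']; exact h1
        · rw [hy3 i h'']; exact h2
      · rw [hy4 i h']; exact hV _ (hx _)
  have hlt1 : ∀ i : Fin t, i.val < k → f (x i) < f z₁ := fun i hi => (hk1 i).1 hi
  have hlt2 : ∀ i : Fin t, k ≤ i.val → f z₂ < f (x i) := by
    intro i hi
    rcases hgap _ (hx i) with h | h
    · have := (hk1 i).2 h; omega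
    · exact h
  have hymono : ∀ i j, i < j → f (y i) < f (y j) := by
    intro i j hij
    have hij' : i.val < j.val := hij
    rcases lt_or_ge j.val k with hj | hj
    · rw [hy1 i (by omega), hy1 j hj]
      exact hmono _ _ (by simpa using hij')
    · rcases lt_or_ge i.val k with hi | hi
      · rw [hy1 i hi]
        have e1 := hlt1 ⟨i.val, by omega⟩ hi
        rcases Nat.lt_or_ge j.val (k + 2) with hj' | hj'
        · rcases (show j.val = k ∨ j.val = k + 1 by omega) with h'' | h''
          · rw [hy2 j h'']; exact e1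
          · rw [hy3 j h'']; omega
        · rw [hy4 j hj']
          have e2 := hlt2 ⟨j.val - 2, by omega⟩ (by simp only; omega)
          omega
      · rcases Nat.lt_or_ge i.val (k + 2) with hi' | hi'
        · rcases (show i.val = k ∨ i.val = k + 1 by omega) with h'' | h''
          · rw [hy2 i h'']
            rcases Nat.lt_or_ge j.val (k + 2) with hj' | hj'
            · rw [hy3 j (by omega)]; exact h12
            · rw [hy4 j hj']
              have e2 := hlt2 ⟨j.val - 2, by omega⟩ (by simp only; omega)
              omega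
          · rw [hy3 i h'', hy4 j (by omega)]
            exact hlt2 ⟨j.val - 2, by omega⟩ (by simp only; omega)
        · rw [hy4 i hi', hy4 j (by omega)]
          exact hmono _ _ (by rw [Fin.lt_def]; simp only; omega)
  rcases Nat.mod_two_eq_zero_or_one k with hk | hk
  · -- `z₁` plays for `A`
    left
    refine ⟨y, hyV, hymono, ?_, ?_⟩
    · intro i hi
      rcases lt_or_ge i.val k with h | h
      · rw [hy1 i h]
        have := he ⟨i.val, by omega⟩ hi
        simp only [List.mem_cons, not_or]
        exact ⟨Or.inr this.1, hxz2 _, this.2⟩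
      · rcases Nat.lt_or_ge i.val (k + 2) with h' | h'
        · have h'' : i.val = k := by omega
          rw [hy2 i h'']
          rw [List.mem_cons, List.mem_cons, not_or]
          refine ⟨Or.inl rfl, ?_, hB1⟩
          rintro rfl
          exact lt_irrefl _ h12
        · rw [hy4 i h']
          have := he ⟨i.val - 2, by omega⟩ (by simp only; omega)
          simp only [List.mem_cons, not_or]
          exact ⟨Or.inr this.1, hxz2 _, this.2⟩
    · intro i hi
      rcases lt_or_ge i.val k with h | h
      · rw [hy1 i h]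
        have := ho ⟨i.val, by omega⟩ hi
        simp only [List.mem_cons, not_or]
        exact ⟨Or.inr this.1, hxz1 _, this.2⟩
      · rcases Nat.lt_or_ge i.val (k + 2) with h' | h'
        · have h'' : i.val = k + 1 := by omega
          rw [hy3 i h'']
          rw [List.mem_cons, List.mem_cons, not_or]
          refine ⟨Or.inl rfl, ?_, hA2⟩
          rintro rfl
          exact lt_irrefl _ h12
        · rw [hy4 i h']
          have := ho ⟨i.val - 2, by omega⟩ (by simp only; omega)
          simp only [List.mem_cons, not_or]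
          exact ⟨Or.inr this.1, hxz1 _, this.2⟩
  · -- `z₁` plays for `B`
    right
    refine ⟨y, hyV, hymono, ?_, ?_⟩
    · intro i hi
      rcases lt_or_ge i.val k with h | h
      · rw [hy1 i h]
        have := he ⟨i.val, by omega⟩ hi
        simp only [List.mem_cons, not_or]
        exact ⟨Or.inr this.1, hxz1 _, this.2⟩
      · rcases Nat.lt_or_ge i.val (k + 2) with h' | h'
        · have h'' : i.val = k + 1 := by omega
          rw [hy3 i h'']
          rw [List.mem_cons, List.mem_cons, not_or]
          refine ⟨Or.inl rfl, ?_, hB2⟩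
          rintro rfl
          exact lt_irrefl _ h12
        · rw [hy4 i h']
          have := he ⟨i.val - 2, by omega⟩ (by simp only; omega)
          simp only [List.mem_cons, not_or]
          exact ⟨Or.inr this.1, hxz1 _, this.2⟩
    · intro i hi
      rcases lt_or_ge i.val k with h | h
      · rw [hy1 i h]
        have := ho ⟨i.val, by omega⟩ hi
        simp only [List.mem_cons, not_or]
        exact ⟨Or.inr this.1, hxz2 _, this.2⟩
      · rcases Nat.lt_or_ge i.val (k + 2) with h' | h'
        · have h'' : i.val = k := by omega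
          rw [hy2 i h'']
          rw [List.mem_cons, List.mem_cons, not_or]
          refine ⟨Or.inl rfl, ?_, hA1⟩
          rintro rfl
          exact lt_irrefl _ h12
        · rw [hy4 i h']
          have := ho ⟨i.val - 2, by omega⟩ (by simp only; omega)
          simp only [List.mem_cons, not_or]
          exact ⟨Or.inr this.1, hxz2 _, this.2⟩

/-- Among more jokers than there are gaps, two are in the same gap. -/
theorem exists_gap {V J : List ℕ} {f : ℕ → ℤ} (hJ : J.Nodup) (hlen : V.length + 2 ≤ J.length)
    (hinj : Set.InjOn f {v | v ∈ V ∨ v ∈ J}) (hdis : ∀ z ∈ J, z ∉ V) :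
    ∃ z₁ ∈ J, ∃ z₂ ∈ J, f z₁ < f z₂ ∧ ∀ v ∈ V, f v < f z₁ ∨ f z₂ < f v := by
  classical
  let c : ℕ → ℕ := fun z => (V.toFinset.filter fun v => f v < f z).card
  have hc : ∀ z ∈ J.toFinset, c z ∈ Finset.range (V.length + 1) := by
    intro z _
    rw [Finset.mem_range]
    have h1 := Finset.card_filter_le V.toFinset (fun v => f v < f z)
    have h2 := V.toFinset_card_le
    simp only [c]
    omega
  have hcard : (Finset.range (V.length + 1)).card < J.toFinset.card := by
    rw [Finset.card_range, List.toFinset_card_of_nodup hJ]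
    omega
  obtain ⟨z, hz, w, hw, hzw, hcz⟩ := Finset.exists_ne_map_eq_of_card_lt_of_maps_to hcard hc
  rw [List.mem_toFinset] at hz hw
  have key : ∀ z ∈ J, ∀ w ∈ J, f z < f w → c z = c w →
      ∀ v ∈ V, f v < f z ∨ f w < f v := by
    intro z hz w hw hlt hcc v hv
    by_contra hcon
    rw [not_or, not_lt, not_lt] at hcon
    have hvz : f z ≠ f v := fun h => hdis z hz ((hinj (Or.inr hz) (Or.inl hv) h) ▸ hv)
    have hvw : f w ≠ f v := fun h => hdis w hw ((hinj (Or.inr hw) (Or.inl hv) h) ▸ hv)
    have hss : (V.toFinset.filter fun v => f v < f z) ⊂ (V.toFinset.filter fun v => f v < f w) := by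
      rw [Finset.ssubset_iff_of_subset]
      · refine ⟨v, ?_, ?_⟩
        · simp only [Finset.mem_filter, List.mem_toFinset]
          exact ⟨hv, by omega⟩
        · simp only [Finset.mem_filter, List.mem_toFinset]
          rintro ⟨_, h⟩
          omega
      · intro u hu
        simp only [Finset.mem_filter] at hu ⊢
        exact ⟨hu.1, by omega⟩
    have := Finset.card_lt_card hss
    simp only [c] at hcc
    omega
  have hne : f z ≠ f w := fun h => hzw (hinj (Or.inr hz) (Or.inr hw) h)
  rcases lt_or_gt_of_ne hne with h | h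
  · exact ⟨z, hz, w, hw, h, key z hz w hw h hcz⟩
  · exact ⟨w, hw, z, hz, h, key w hw z hz h hcz.symm⟩

/-- jokers placed before everything else add at most two to the length of an alternation -/
theorem remove_two {t : ℕ} {V J A B : List ℕ} {f : ℕ → ℤ} {z w : ℕ}
    (hJV : ∀ z ∈ J, ∀ v ∈ V, f z < f v) (hA : ∀ v ∈ A, v ∈ V) (hB : ∀ v ∈ B, v ∈ V)
    (hz : z ∈ J) (hw : w ∈ J)
    (h : Forms (t + 2) (V ++ J) f (z :: A) (w :: B)) : Forms t V f A B := by
  obtain ⟨x, hx, hmono, he, ho⟩ := h
  have hJ' : ∀ v ∈ J, v ∉ V := fun v hv hv' => lt_irrefl _ (hJV v hv v hv')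
  -- members that are even/odd
  have hmem : ∀ i : Fin (t + 2), 2 ≤ i.val → x i ∈ V := by
    intro i hi
    by_contra hcon
    have hxi : x i = z ∨ x i = w := by
      rcases Nat.mod_two_eq_zero_or_one i.val with h | h
      · have := (he i h).1
        rw [List.mem_cons] at this
        rcases this with h' | h'
        · exact Or.inl h'
        · exact absurd (hA _ h') hcon
      · have := (ho i h).1
        rw [List.mem_cons] at this
        rcases this with h' | h'
        · exact Or.inr h'
        · exact absurd (hB _ h') hcon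
    have hxJ : x i ∈ J := by rcases hxi with h | h <;> rw [h] <;> assumption
    -- all earlier members are jokers
    have hearly : ∀ j : Fin (t + 2), j < i → x j = z ∨ x j = w := by
      intro j hj
      have hlt := hmono j i hj
      have hjV : x j ∉ V := fun h => by
        have := hJV _ hxJ _ h
        omega
      rcases Nat.mod_two_eq_zero_or_one j.val with h | h
      · have := (he j h).1
        rw [List.mem_cons] at this
        rcases this with h' | h'
        · exact Or.inl h'
        · exact absurd (hA _ h') hjV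
      · have := (ho j h).1
        rw [List.mem_cons] at this
        rcases this with h' | h'
        · exact Or.inr h'
        · exact absurd (hB _ h') hjV
    have h0 := hearly ⟨0, by omega⟩ (by rw [Fin.lt_def]; simp only; omega)
    have h1 := hearly ⟨1, by omega⟩ (by rw [Fin.lt_def]; simp only; omega)
    have l01 := hmono ⟨0, by omega⟩ ⟨1, by omega⟩ (by rw [Fin.lt_def]; simp only; omega)
    have l0i := hmono ⟨0, by omega⟩ i (by rw [Fin.lt_def]; simp only; omega)
    have l1i := hmono ⟨1, by omega⟩ i (by rw [Fin.lt_def]; simp only; omega)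
    rcases hxi with h | h <;> rcases h0 with h0 | h0 <;> rcases h1 with h1 | h1 <;>
      rw [h0] at l01 l0i <;> rw [h1] at l01 l1i <;> rw [h] at l0i l1i <;> omega
  refine ⟨fun i => x ⟨i.val + 2, by omega⟩, fun i => hmem _ (by simp only; omega), ?_, ?_, ?_⟩
  · intro i j hij
    exact hmono _ _ (by rw [Fin.lt_def] at hij ⊢; simp only; omega)
  · intro i hi
    have h1 := he ⟨i.val + 2, by omega⟩ (by simp only; omega)
    have h2 := hmem ⟨i.val + 2, by omega⟩ (by simp only; omega)
    simp only [List.mem_cons, not_or] at h1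
    refine ⟨?_, h1.2.2⟩
    rcases h1.1 with h | h
    · exact absurd h2 (hJ' _ (h ▸ hz))
    · exact h
  · intro i hi
    have h1 := ho ⟨i.val + 2, by omega⟩ (by simp only; omega)
    have h2 := hmem ⟨i.val + 2, by omega⟩ (by simp only; omega)
    simp only [List.mem_cons, not_or] at h1
    refine ⟨?_, h1.2.2⟩
    rcases h1.1 with h | h
    · exact absurd h2 (hJ' _ (h ▸ hw))
    · exact h

/-- the jokers -/
def jokers (H : Hyp) : List ℕ :=
  (List.range (H.1.length + 2)).map (fun i => i + (H.1.sum + H.2.flatten.sum + 1))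

/-- The hypergraph for `t + 2`. -/
def ext (H : Hyp) : Hyp :=
  (H.1 ++ jokers H, H.2.flatMap fun A => (jokers H).map fun z => z :: A)

theorem mem_jokers {H : Hyp} {z : ℕ} : z ∈ jokers H ↔
    ∃ i < H.1.length + 2, z = i + (H.1.sum + H.2.flatten.sum + 1) := by
  unfold jokers
  simp only [List.mem_map, List.mem_range]
  constructor
  · rintro ⟨i, h, rfl⟩; exact ⟨i, h, rfl⟩
  · rintro ⟨i, h, rfl⟩; exact ⟨i, h, rfl⟩

theorem joker_not_mem {H : Hyp} {z : ℕ} (h : z ∈ jokers H) : z ∉ H.1 := by
  intro hz
  obtain ⟨i, _, rfl⟩ := mem_jokers.1 h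
  have := List.single_le_sum (fun x _ => Nat.zero_le x) _ hz
  omega

theorem joker_not_mem' {H : Hyp} {z : ℕ} (h : z ∈ jokers H) {e : List ℕ} (he : e ∈ H.2) :
    z ∉ e := by
  intro hz
  obtain ⟨i, _, rfl⟩ := mem_jokers.1 h
  have := List.single_le_sum (fun x _ => Nat.zero_le x) _ (List.mem_flatten.2 ⟨e, he, hz⟩)
  omega

theorem jokers_nodup (H : Hyp) : (jokers H).Nodup := by
  unfold jokers
  exact List.nodup_range.map (fun a b h => by simpa using h)

theorem jokers_length (H : Hyp) : (jokers H).length = H.1.length + 2 := by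
  simp [jokers]

/-- extension of a position function by jokers in front -/
theorem exists_front (V J : List ℕ) (f : ℕ → ℤ) (hf : Set.InjOn f {v | v ∈ V})
    (hJ : ∀ z ∈ J, z ∉ V) : ∃ f' : ℕ → ℤ, (∀ v ∈ V, f' v = f v) ∧
      Set.InjOn f' {v | v ∈ V ++ J} ∧ ∀ z ∈ J, ∀ v ∈ V, f' z < f' v := by
  classical
  obtain ⟨C, hC⟩ : ∃ C : ℤ, ∀ v ∈ V, C < f v := by
    obtain ⟨C, hC⟩ := ((List.finite_toSet V).image f).bddBelow
    exact ⟨C - 1, fun v hv => by have := hC ⟨v, hv, rfl⟩; omega⟩
  let M : ℤ := J.sum
  let f' : ℕ → ℤ := fun v => if v ∈ V then f v else C - M + v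
  have f1 : ∀ v ∈ V, f' v = f v := fun v hv => if_pos hv
  have f2 : ∀ v, v ∉ V → f' v = C - M + v := fun v hv => if_neg hv
  have hlow : ∀ z ∈ J, f' z ≤ C := by
    intro z hz
    rw [f2 z (hJ z hz)]
    have := List.single_le_sum (fun x _ => Nat.zero_le x) _ hz
    simp only [M]
    omega
  refine ⟨f', f1, ?_, ?_⟩
  · intro u hu v hv huv
    have hu : u ∈ V ++ J := hu
    have hv : v ∈ V ++ J := hv
    rw [List.mem_append] at hu hv
    by_cases hu' : u ∈ V
    · by_cases hv' : v ∈ V
      · rw [f1 u hu', f1 v hv'] at huv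
        exact hf hu' hv' huv
      · have h1 := hlow v (hv.resolve_left hv')
        rw [f1 u hu'] at huv
        have h2 := hC u hu'
        omega
    · by_cases hv' : v ∈ V
      · have h1 := hlow u (hu.resolve_left hu')
        rw [f1 v hv'] at huv
        have h2 := hC v hv'
        omega
      · rw [f2 u hu', f2 v hv'] at huv
        omega
  · intro z hz v hv
    rw [f1 v hv]
    exact lt_of_le_of_lt (hlow z hz) (hC v hv)

theorem Forms.congr {t : ℕ} {V A B : List ℕ} {f f' : ℕ → ℤ} (h : ∀ v ∈ V, f' v = f v)
    (hf : Forms t V f' A B) : Forms t V f A B := by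
  obtain ⟨x, hx, hm, he, ho⟩ := hf
  exact ⟨x, hx, fun i j hij => by
    have := hm i j hij
    rwa [h _ (hx i), h _ (hx j)] at this, he, ho⟩

theorem ext_correct {t : ℕ} (H : Hyp) : AltFree t H ↔ AltFree (t + 2) (ext H) := by
  constructor
  · rintro ⟨hH, f, hf, h⟩
    refine ⟨?_, ?_⟩
    · intro e he v hv
      simp only [ext, List.mem_flatMap, List.mem_map] at he
      obtain ⟨A, hA, z, hz, rfl⟩ := he
      simp only [ext, List.mem_append]
      rcases List.mem_cons.1 hv with rfl | hv
      · exact Or.inr hz
      · exact Or.inl (hH A hA v hv)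
    · obtain ⟨f', h1, h2, h3⟩ := exists_front H.1 (jokers H) f hf (fun z hz => joker_not_mem hz)
      refine ⟨f', h2, ?_⟩
      intro X hX Y hY hform
      simp only [ext, List.mem_flatMap, List.mem_map] at hX hY
      obtain ⟨A, hA, z, hz, rfl⟩ := hX
      obtain ⟨B, hB, w, hw, rfl⟩ := hY
      exact h A hA B hB ((remove_two h3 (hH A hA) (hH B hB) hz hw hform).congr h1)
  · rintro ⟨hH, f, hf, h⟩
    have hJne : jokers H ≠ [] := by
      intro h0
      have := jokers_length H
      rw [h0] at this
      simp at this
    obtain ⟨z₀, hz₀⟩ := List.exists_mem_of_ne_nil _ hJne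
    have hmem : ∀ A ∈ H.2, ∀ z ∈ jokers H, z :: A ∈ (ext H).2 := by
      intro A hA z hz
      simp only [ext, List.mem_flatMap, List.mem_map]
      exact ⟨A, hA, z, hz, rfl⟩
    refine ⟨?_, f, ?_, ?_⟩
    · intro e he v hv
      have h1 := hH (z₀ :: e) (hmem e he z₀ hz₀) v (List.mem_cons_of_mem _ hv)
      simp only [ext, List.mem_append] at h1
      exact h1.resolve_right fun h2 => joker_not_mem' h2 he hv
    · intro u hu v hv
      exact hf (List.mem_append_left _ hu) (List.mem_append_left _ hv)
    · intro A hA B hB hform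
      obtain ⟨z₁, hz₁, z₂, hz₂, h12, hgap⟩ := exists_gap (V := H.1) (J := jokers H) (f := f)
        (jokers_nodup H) (by rw [jokers_length]) (by
          intro u hu v hv
          exact hf (List.mem_append.2 hu) (List.mem_append.2 hv)) (fun z hz => joker_not_mem hz)
      rcases insert_two (V' := (ext H).1) (fun v hv => List.mem_append_left _ hv)
        (List.mem_append_right _ hz₁) (List.mem_append_right _ hz₂) h12 hgap
        (joker_not_mem' hz₁ hA) (joker_not_mem' hz₂ hA) (joker_not_mem' hz₁ hB)
        (joker_not_mem' hz₂ hB) (joker_not_mem hz₁) (joker_not_mem hz₂) hform with h' | h'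
      · exact h _ (hmem A hA z₁ hz₁) _ (hmem B hB z₂ hz₂) h'
      · exact h _ (hmem A hA z₂ hz₂) _ (hmem B hB z₁ hz₁) h'

end Pool.Agent.K3h99.AF
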