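import Pool.Agent.K3h99.AF.Base

/-!
# The case `t = 5`
-/

set_option autoImplicit false

namespace Pool.Agent.K3h99.AF

open Pool.Agent.H495R3.Cy

variable {n : ℕ}

/-- the jokers of the hypergraph for `t = 5` -/
def jk (M : ℕ) : List ℕ := (List.range (M + 2)).map (fun i => i + M)

theorem mem_jk {M z : ℕ} : z ∈ jk M ↔ M ≤ z ∧ z < 2 * M + 2 := by
  unfold jk
  simp only [List.mem_map, List.mem_range]
  constructor
  · rintro ⟨i, h, rfl⟩; omega
  · rintro ⟨h1, h2⟩; exact ⟨z - M, by omega, by omega⟩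

theorem jk_nodup (M : ℕ) : (jk M).Nodup := by
  unfold jk
  exact List.nodup_range.map (fun a b h => by simpa using h)

/-- The hypergraph for `t = 5`. -/
def hyp5 (n : ℕ) (Q : List Quad) : Hyp :=
  (List.range ((Q.length + 1) * n) ++ jk ((Q.length + 1) * n),
    (List.range n).map (fun x => fib n (Q.length + 1) x) ++
    ((List.range n).map (fun x => cof n (Q.length + 1) x) ++
    (Q.zipIdx.flatMap (fun p => (jk ((Q.length + 1) * n)).map fun z =>
      z :: gad n (Q.length + 1) p.2 [p.1.2.2.1]) ++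
    Q.zipIdx.flatMap (fun p => (jk ((Q.length + 1) * n)).map fun z =>
      z :: gad n (Q.length + 1) p.2 [p.1.2.1, p.1.2.2.2]))))

theorem mem_hyp5 {Q : List Quad} {X : List ℕ} : X ∈ (hyp5 n Q).2 ↔
    (∃ x < n, X = fib n (Q.length + 1) x) ∨ (∃ x < n, X = cof n (Q.length + 1) x) ∨
    (∃ q j, ∃ z ∈ jk ((Q.length + 1) * n), Q[j]? = some q ∧
      X = z :: gad n (Q.length + 1) j [q.2.2.1]) ∨
    (∃ q j, ∃ z ∈ jk ((Q.length + 1) * n), Q[j]? = some q ∧
      X = z :: gad n (Q.length + 1) j [q.2.1, q.2.2.2]) := by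
  unfold hyp5
  simp only [List.mem_append, List.mem_map, List.mem_flatMap, List.mem_range, Prod.exists,
    List.mem_zipIdx_iff_getElem?]
  constructor
  · rintro (⟨x, h, rfl⟩ | ⟨x, h, rfl⟩ | ⟨a, b, c, d, j, h, z, hz, rfl⟩ |
      ⟨a, b, c, d, j, h, z, hz, rfl⟩)
    · exact Or.inl ⟨x, h, rfl⟩
    · exact Or.inr (Or.inl ⟨x, h, rfl⟩)
    · exact Or.inr (Or.inr (Or.inl ⟨_, _, _, _, j, z, hz, h, rfl⟩))
    · exact Or.inr (Or.inr (Or.inr ⟨_, _, _, _, j, z, hz, h, rfl⟩))
  · rintro (⟨x, h, rfl⟩ | ⟨x, h, rfl⟩ | ⟨a, b, c, d, j, z, hz, h, rfl⟩ |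
      ⟨a, b, c, d, j, z, hz, h, rfl⟩)
    · exact Or.inl ⟨x, h, rfl⟩
    · exact Or.inr (Or.inl ⟨x, h, rfl⟩)
    · exact Or.inr (Or.inr (Or.inl ⟨_, _, _, _, j, h, z, hz, rfl⟩))
    · exact Or.inr (Or.inr (Or.inr ⟨_, _, _, _, j, h, z, hz, rfl⟩))

theorem isHyp5 (Q : List Quad) : IsHyp (hyp5 n Q) := by
  intro e he v hv
  show v ∈ List.range _ ++ _
  rw [List.mem_append, List.mem_range]
  rcases mem_hyp5.1 he with ⟨x, _, rfl⟩ | ⟨x, _, rfl⟩ | ⟨q, j, z, hz, _, rfl⟩ |
    ⟨q, j, z, hz, _, rfl⟩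
  · exact Or.inl (mem_fib.1 hv).1
  · exact Or.inl (mem_cof.1 hv).1
  · rcases List.mem_cons.1 hv with rfl | hv
    · exact Or.inr hz
    · exact Or.inl (mem_gad.1 hv).1
  · rcases List.mem_cons.1 hv with rfl | hv
    · exact Or.inr hz
    · exact Or.inl (mem_gad.1 hv).1

/-- `a` is not between `b` and `c` -/
def NB (g : ℕ → ℤ) (a b c : ℕ) : Prop :=
  ¬ ((g b < g a ∧ g a < g c) ∨ (g c < g a ∧ g a < g b))

theorem final_case {g : ℕ → ℤ} {a b c u v w : ℕ} {F F' : List ℕ} (hN : NB g a b c)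
    (a1 : u ∈ F) (a2 : u ∉ F') (b1 : v ∈ F') (b2 : v ∉ F) (c1 : w ∈ F) (c2 : w ∉ F')
    (hF : F = [a] ∨ F = [b, c]) (hF' : F' = [a] ∨ F' = [b, c]) (g1 : g u < g v) (g2 : g v < g w) :
    False := by
  unfold NB at hN
  rcases hF with rfl | rfl <;> rcases hF' with rfl | rfl
  · exact a2 a1
  · rw [List.mem_singleton] at a1 c1
    rw [a1] at g1; rw [c1] at g2; omega
  · rw [List.mem_singleton] at b1
    rw [List.mem_cons, List.mem_singleton] at a1 c1
    rw [b1] at g1 g2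
    rcases a1 with a1 | a1 <;> rcases c1 with c1 | c1 <;> rw [a1] at g1 <;>
      rw [c1] at g2 <;> omega
  · exact a2 a1

theorem complete5 {Q : List Quad} {g : ℕ → ℤ} (hg : Set.InjOn g {x | x < n})
    (hs : ∀ q ∈ Q, NB g q.2.2.1 q.2.1 q.2.2.2) : AltFree 5 (hyp5 n Q) := by
  obtain ⟨f, f1, f2, f3⟩ := exists_front (List.range ((Q.length + 1) * n))
    (jk ((Q.length + 1) * n)) (pos n (Q.length + 1) g) (pos_injOn hg) (fun z hz => by
      rw [mem_jk] at hz; rw [List.mem_range]; omega)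
  refine ⟨isHyp5 Q, f, f2, ?_⟩
  intro X hX Y hY hform
  obtain ⟨s, hsV, hmono, he, ho⟩ := hform
  -- being in the main part
  have f1' : ∀ {v}, v < (Q.length + 1) * n → f v = pos n (Q.length + 1) g v := fun h =>
    f1 _ (List.mem_range.2 h)
  have f3' : ∀ {u v}, u ∈ (hyp5 n Q).1 → v < (Q.length + 1) * n → f v < f u →
      u < (Q.length + 1) * n := by
    intro u v hu hv huv
    have hu : u ∈ List.range ((Q.length + 1) * n) ++ jk ((Q.length + 1) * n) := hu
    rw [List.mem_append, List.mem_range] at hu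
    rcases hu with hu | hu
    · exact hu
    · have := f3 u hu v (List.mem_range.2 hv)
      omega
  have f3'' : ∀ {z v}, z ∈ jk ((Q.length + 1) * n) → v < (Q.length + 1) * n → f z < f v :=
    fun hz hv => f3 _ hz _ (List.mem_range.2 hv)
  obtain ⟨a, ha⟩ : ∃ a, s 0 = a := ⟨_, rfl⟩
  obtain ⟨b, hb⟩ : ∃ a, s 1 = a := ⟨_, rfl⟩
  obtain ⟨a', ha'⟩ : ∃ a, s 2 = a := ⟨_, rfl⟩
  obtain ⟨b', hb'⟩ : ∃ a, s 3 = a := ⟨_, rfl⟩
  obtain ⟨a'', ha''⟩ : ∃ a, s 4 = a := ⟨_, rfl⟩
  have v1 := hsV 0; have v2 := hsV 1; have v3 := hsV 2; have v4 := hsV 3; have v5 := hsV 4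
  have l1 := hmono 0 1 (by decide)
  have l2 := hmono 1 2 (by decide)
  have l3 := hmono 2 3 (by decide)
  have l4 := hmono 3 4 (by decide)
  have m1 := he 0 (by decide)
  have m2 := ho 1 (by decide)
  have m3 := he 2 (by decide)
  have m4 := ho 3 (by decide)
  have m5 := he 4 (by decide)
  rw [ha] at v1 l1 m1
  rw [hb] at v2 l1 l2 m2
  rw [ha'] at v3 l2 l3 m3
  rw [hb'] at v4 l3 l4 m4
  rw [ha''] at v5 l4 m5
  have cv : ∀ {u v w : ℕ}, u < (Q.length + 1) * n → v < (Q.length + 1) * n →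
      w < (Q.length + 1) * n → u % n = w % n → f u < f v → f v < f w → v % n = u % n := by
    intro u v w hu hv hw h h1 h2
    rw [f1' hu, f1' hv] at h1
    rw [f1' hv, f1' hw] at h2
    exact conv hg hu hv hw h h1 h2
  -- a difference of two gadget sets
  have gsub : ∀ {i j z w v : ℕ} {F F' : List ℕ}, i < j →
      v ∈ z :: gad n (Q.length + 1) i F → v ∉ w :: gad n (Q.length + 1) j F' → v = z := by
    intro i j z w v F F' hij h h'
    rcases List.mem_cons.1 h with h | h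
    · exact h
    · exact absurd (List.mem_cons_of_mem _ (gad_sub hij h)) h'
  have gdif : ∀ {i z w v : ℕ} {F F' : List ℕ},
      v ∈ z :: gad n (Q.length + 1) i F → v ∉ w :: gad n (Q.length + 1) i F' →
      v = z ∨ (v < (Q.length + 1) * n ∧ v / n = i ∧ v % n ∈ F ∧ v % n ∉ F') := by
    intro i z w v F F' h h'
    rcases List.mem_cons.1 h with h | h
    · exact Or.inl h
    · right
      have h2 : v ∉ gad n (Q.length + 1) i F' := fun h3 => h' (List.mem_cons_of_mem _ h3)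
      obtain ⟨h4, h5, h6⟩ := gad_diff h h2
      refine ⟨h4, h5, h6, fun h7 => h2 (mem_gad.2 ⟨h4, Or.inr ⟨h5, h7⟩⟩)⟩
  rcases mem_hyp5.1 hX with ⟨x, _, rfl⟩ | ⟨x, _, rfl⟩ | hX'
  · have e1 := mem_fib.1 m1.1
    have e2 := mem_fib.1 m3.1
    have hb := f3' v2 e1.1 l1
    have := cv e1.1 hb e2.1 (e1.2.trans e2.2.symm) l1 l2
    exact m2.2 (mem_fib.2 ⟨hb, this.trans e1.2⟩)
  · have e1 := mem_cof.1 m1.1
    have hb := f3' v2 e1.1 l1
    have ha' := f3' v3 hb l2
    have hb' := f3' v4 ha' l3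
    have e2 : b % n = x := by
      by_contra h; exact m2.2 (mem_cof.2 ⟨hb, h⟩)
    have e3 : b' % n = x := by
      by_contra h; exact m4.2 (mem_cof.2 ⟨hb', h⟩)
    have := cv hb ha' hb' (e2.trans e3.symm) l2 l3
    exact (mem_cof.1 m3.1).2 (this.trans e2)
  · rcases mem_hyp5.1 hY with ⟨y, _, rfl⟩ | ⟨y, _, rfl⟩ | hY'
    · have e1 := mem_fib.1 m2.1
      have e2 := mem_fib.1 m4.1
      have ha' := f3' v3 e1.1 l2
      have := cv e1.1 ha' e2.1 (e1.2.trans e2.2.symm) l2 l3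
      exact m3.2 (mem_fib.2 ⟨ha', this.trans e1.2⟩)
    · have e1 := mem_cof.1 m2.1
      have ha' := f3' v3 e1.1 l2
      have hb' := f3' v4 ha' l3
      have ha'' := f3' v5 hb' l4
      have e2 : a' % n = y := by
        by_contra h; exact m3.2 (mem_cof.2 ⟨ha', h⟩)
      have e3 : a'' % n = y := by
        by_contra h; exact m5.2 (mem_cof.2 ⟨ha'', h⟩)
      have := cv ha' hb' ha'' (e2.trans e3.symm) l3 l4
      exact (mem_cof.1 m4.1).2 (this.trans e2)
    · have hXc : ∃ q i z F, z ∈ jk ((Q.length + 1) * n) ∧ Q[i]? = some q ∧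
          X = z :: gad n (Q.length + 1) i F ∧ (F = [q.2.2.1] ∨ F = [q.2.1, q.2.2.2]) := by
        rcases hX' with ⟨q, i, z, hz, hq, h⟩ | ⟨q, i, z, hz, hq, h⟩
        · exact ⟨q, i, z, _, hz, hq, h, Or.inl rfl⟩
        · exact ⟨q, i, z, _, hz, hq, h, Or.inr rfl⟩
      have hYc : ∃ q i z F, z ∈ jk ((Q.length + 1) * n) ∧ Q[i]? = some q ∧
          Y = z :: gad n (Q.length + 1) i F ∧ (F = [q.2.2.1] ∨ F = [q.2.1, q.2.2.2]) := by
        rcases hY' with ⟨q, i, z, hz, hq, h⟩ | ⟨q, i, z, hz, hq, h⟩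
        · exact ⟨q, i, z, _, hz, hq, h, Or.inl rfl⟩
        · exact ⟨q, i, z, _, hz, hq, h, Or.inr rfl⟩
      obtain ⟨q, i, z, F, hz, hq, rfl, hF⟩ := hXc
      obtain ⟨q', j, w, F', hw, hq', rfl, hF'⟩ := hYc
      rcases lt_trichotomy i j with hij | hij | hij
      · have h1 := gsub hij m1.1 m1.2
        have h2 := gsub hij m3.1 m3.2
        rw [h1] at l1
        rw [h2] at l2
        omega
      · subst hij
        rw [hq] at hq'
        have hqq : q = q' := Option.some.inj hq'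
        subst hqq
        have hN := hs q (List.mem_of_getElem? hq)
        have d1 := gdif m1.1 m1.2
        have d2 := gdif m2.1 m2.2
        have d3 := gdif m3.1 m3.2
        have d4 := gdif m4.1 m4.2
        have d5 := gdif m5.1 m5.2
        -- `a'` and `a''` are not jokers
        have d3' := d3.resolve_left (fun h => by
          rcases d1 with h1 | h1
          · rw [h1] at l1; rw [h] at l2; omega
          · have := f3'' hz h1.1; rw [h] at l2; omega)
        have d5' := d5.resolve_left (fun h => by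
          have := f3'' hz d3'.1
          rw [h] at l4; omega)
        have d4' := d4.resolve_left (fun h => by
          have := f3'' hw d3'.1
          rw [h] at l3; omega)
        have g1 : g (a' % n) < g (b' % n) := by
          rw [f1' d3'.1, f1' d4'.1] at l3
          exact lt_of_level d3'.1 d4'.1 (d3'.2.1.trans d4'.2.1.symm) l3
        have g2 : g (b' % n) < g (a'' % n) := by
          rw [f1' d4'.1, f1' d5'.1] at l4
          exact lt_of_level d4'.1 d5'.1 (d4'.2.1.trans d5'.2.1.symm) l4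
        exact final_case hN d3'.2.2.1 d3'.2.2.2 d4'.2.2.1 d4'.2.2.2 d5'.2.2.1 d5'.2.2.2 hF hF' g1 g2
      · have h1 := gsub hij m2.1 m2.2
        have h2 := gsub hij m4.1 m4.2
        rw [h1] at l2
        rw [h2] at l3
        omega

theorem sound5 {Q : List Quad} (hQ : ∀ q ∈ Q, q.2.1 < n ∧ q.2.2.1 < n ∧ q.2.2.2 < n ∧
      q.2.1 ≠ q.2.2.1 ∧ q.2.2.1 ≠ q.2.2.2) (hn : 0 < n)
    (h : AltFree 5 (hyp5 n Q)) :
    ∃ g : ℕ → ℤ, Set.InjOn g {x | x < n} ∧ ∃ e₁ e₂ : ℕ, ∀ q ∈ Q,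
      q.2.1 ≠ e₁ → q.2.2.1 ≠ e₁ → q.2.2.2 ≠ e₁ → q.2.1 ≠ e₂ → q.2.2.1 ≠ e₂ → q.2.2.2 ≠ e₂ →
      NB g q.2.2.1 q.2.1 q.2.2.2 := by
  obtain ⟨-, f, hf, hfree⟩ := h
  set M := (Q.length + 1) * n with hM
  have hle : n ≤ M := Nat.le_mul_of_pos_left n (by omega)
  have hV : ∀ {v}, v < M → v ∈ (hyp5 n Q).1 := fun h =>
    List.mem_append_left _ (List.mem_range.2 h)
  have hJ : ∀ {v}, v ∈ jk M → v ∈ (hyp5 n Q).1 := fun h => List.mem_append_right _ h
  -- the first and the last vertex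
  obtain ⟨lo, hlo, hlo'⟩ := Finset.exists_min_image (Finset.range M) f ⟨0, by simp; omega⟩
  obtain ⟨hi, hhi, hhi'⟩ := Finset.exists_max_image (Finset.range M) f ⟨0, by simp; omega⟩
  rw [Finset.mem_range] at hlo hhi
  -- contiguity for the other elements
  have hcont : ∀ {p q p' : ℕ}, p < M → q < M → p' < M → p % n = p' % n → q % n ≠ p % n →
      p % n ≠ lo % n → p % n ≠ hi % n → f p < f q → f q < f p' → False := by
    intro p q p' hp hq hp' h1 h2 h3 h4 h5 h6
    have hx : p % n < n := Nat.mod_lt _ hn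
    have m1 : fib n (Q.length + 1) (p % n) ∈ (hyp5 n Q).2 := mem_hyp5.2 (Or.inl ⟨_, hx, rfl⟩)
    have m2 : cof n (Q.length + 1) (p % n) ∈ (hyp5 n Q).2 :=
      mem_hyp5.2 (Or.inr (Or.inl ⟨_, hx, rfl⟩))
    have c1 : f lo < f p := by
      rcases (hlo' p (Finset.mem_range.2 hp)).lt_or_eq with h | h
      · exact h
      · have := hf (hV hlo) (hV hp) h
        subst this
        exact absurd rfl h3
    have c2 : f p' < f hi := by
      rcases (hhi' p' (Finset.mem_range.2 hp')).lt_or_eq with h | h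
      · exact h
      · have := hf (hV hp') (hV hhi) h
        subst this
        exact absurd h1 h4
    refine hfree _ m2 _ m1 (forms5 (hV hlo) (hV hp) (hV hq) (hV hp') (hV hhi) c1 h5 h6 c2
      ⟨mem_cof.2 ⟨hlo, fun h => h3 h.symm⟩, fun h => h3 (mem_fib.1 h).2.symm⟩
      ⟨mem_fib.2 ⟨hp, rfl⟩, fun h => (mem_cof.1 h).2 rfl⟩
      ⟨mem_cof.2 ⟨hq, h2⟩, fun h => h2 (mem_fib.1 h).2⟩
      ⟨mem_fib.2 ⟨hp', h1.symm⟩, fun h => (mem_cof.1 h).2 h1.symm⟩
      ⟨mem_cof.2 ⟨hhi, fun h => h4 h.symm⟩, fun h => h4 (mem_fib.1 h).2.symm⟩)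
  -- two jokers in one gap
  obtain ⟨z₁, hz₁, z₂, hz₂, h12, hgap⟩ := exists_gap (V := List.range M) (J := jk M) (f := f)
    (jk_nodup M) (by simp [jk]) (by
      intro u hu v hv
      exact hf (List.mem_append.2 hu) (List.mem_append.2 hv)) (fun z hz => by
        rw [mem_jk] at hz; rw [List.mem_range]; omega)
  have z1M := mem_jk.1 hz₁
  have z2M := mem_jk.1 hz₂
  refine ⟨f, ?_, lo % n, hi % n, ?_⟩
  · intro x hx y hy hxy
    have hx : x < n := hx
    have hy : y < n := hy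
    exact hf (hV (by omega)) (hV (by omega)) hxy
  · intro q hq b1 a1 c1 b2 a2 c2
    obtain ⟨j, hj, hqj⟩ := List.mem_iff_getElem.1 hq
    have hqj' : Q[j]? = some q := by rw [List.getElem?_eq_getElem hj, hqj]
    obtain ⟨r2, r3, r4, n4, n6⟩ := hQ q hq
    have hjK : j < Q.length + 1 := by omega
    have in1 : ∀ {x : ℕ} {F F' : List ℕ}, x < n → x ∈ F → x ∉ F' →
        j * n + x ∈ gad n (Q.length + 1) j F ∧ j * n + x ∉ gad n (Q.length + 1) j F' := by
      intro x F F' hx h1 h2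
      rw [mem_gad, mem_gad, copy_mod hx, copy_div hx]
      refine ⟨⟨copy_lt hjK hx, Or.inr ⟨rfl, h1⟩⟩, ?_⟩
      rintro ⟨_, h | h⟩
      · omega
      · exact h2 h.2
    have m1 : ∀ z ∈ jk M, z :: gad n (Q.length + 1) j [q.2.2.1] ∈ (hyp5 n Q).2 := fun z hz =>
      mem_hyp5.2 (Or.inr (Or.inr (Or.inl ⟨q, j, z, hz, hqj', rfl⟩)))
    have m2 : ∀ z ∈ jk M, z :: gad n (Q.length + 1) j [q.2.1, q.2.2.2] ∈ (hyp5 n Q).2 :=
      fun z hz => mem_hyp5.2 (Or.inr (Or.inr (Or.inr ⟨q, j, z, hz, hqj', rfl⟩)))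
    have gV : ∀ {v : ℕ} {F : List ℕ}, v ∈ gad n (Q.length + 1) j F → v < M := fun h =>
      (mem_gad.1 h).1
    -- the constraint on level `j`
    have key : ∀ {u w : ℕ}, u < n → w < n → u ∈ [q.2.1, q.2.2.2] → w ∈ [q.2.1, q.2.2.2] →
        f (j * n + u) < f (j * n + q.2.2.1) → f (j * n + q.2.2.1) < f (j * n + w) → False := by
      intro u w hu hw hu' hw' h1 h2
      have e1 : ∀ v, v ∈ [q.2.1, q.2.2.2] → v ∉ [q.2.2.1] := by
        intro v hv
        simp only [List.mem_cons, List.not_mem_nil, or_false] at hv ⊢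
        rcases hv with rfl | rfl
        · exact n4
        · exact n6.symm
      have hform : Forms 3 (List.range M) f (gad n (Q.length + 1) j [q.2.1, q.2.2.2])
          (gad n (Q.length + 1) j [q.2.2.1]) := by
        refine forms3 (List.mem_range.2 (copy_lt hjK hu)) (List.mem_range.2 (copy_lt hjK r3))
          (List.mem_range.2 (copy_lt hjK hw)) h1 h2 (in1 hu hu' (e1 u hu')) (in1 r3 (by simp) ?_)
          (in1 hw hw' (e1 w hw'))
        simp only [List.mem_cons, List.not_mem_nil, or_false, not_or]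
        exact ⟨n4.symm, n6⟩
      rcases insert_two (V' := (hyp5 n Q).1) (fun v hv => hV (List.mem_range.1 hv))
        (hJ hz₁) (hJ hz₂) h12 hgap (fun h => by have := gV h; omega)
        (fun h => by have := gV h; omega) (fun h => by have := gV h; omega)
        (fun h => by have := gV h; omega) (fun h => by have := List.mem_range.1 h; omega)
        (fun h => by have := List.mem_range.1 h; omega) hform with h' | h'
      · exact hfree _ (m2 z₁ hz₁) _ (m1 z₂ hz₂) h'
      · exact hfree _ (m2 z₂ hz₂) _ (m1 z₁ hz₁) h'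
    -- transfer to level zero
    have tr : ∀ {x y : ℕ}, x < n → y < n → x ≠ y → x ≠ lo % n → x ≠ hi % n → y ≠ lo % n →
        y ≠ hi % n → f x < f y → f (j * n + x) < f (j * n + y) := by
      intro x y hx hy hxy x1 x2 y1 y2 hlt
      by_contra hcon
      have hne : f (j * n + x) ≠ f (j * n + y) := by
        intro h
        have h1 := hf (hV (copy_lt hjK hx)) (hV (copy_lt hjK hy)) h
        omega
      have hgt : f (j * n + y) < f (j * n + x) := by omega
      have ex : (j * n + x) % n = x := copy_mod hx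
      have ey : (j * n + y) % n = y := copy_mod hy
      have ex0 : x % n = x := Nat.mod_eq_of_lt hx
      have ey0 : y % n = y := Nat.mod_eq_of_lt hy
      have cx := copy_lt (K := Q.length + 1) hjK hx
      have cy := copy_lt (K := Q.length + 1) hjK hy
      rcases lt_trichotomy (f y) (f (j * n + x)) with h | h | h
      · exact hcont (p := x) (q := y) (p' := j * n + x) (by omega) (by omega) (by omega)
          (by rw [ex0, ex]) (by rw [ex0, ey0]; exact hxy.symm) (by rwa [ex0]) (by rwa [ex0]) hlt h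
      · have h1 := hf (hV (by omega)) (hV (by omega)) h
        rw [← h1, ey0] at ex
        exact hxy ex.symm
      · exact hcont (p := j * n + y) (q := j * n + x) (p' := y) (by omega) (by omega) (by omega)
          (by rw [ey0, ey]) (by rw [ex, ey]; exact hxy) (by rwa [ey]) (by rwa [ey]) hgt h
    unfold NB
    rintro (⟨h1, h2⟩ | ⟨h1, h2⟩)
    · exact key r2 r4 (by simp) (by simp) (tr r2 r3 n4 b1 b2 a1 a2 h1)
        (tr r3 r4 n6 a1 a2 c1 c2 h2)
    · exact key r4 r2 (by simp) (by simp) (tr r4 r3 n6.symm c1 c2 a1 a2 h1)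
        (tr r3 r2 n4.symm a1 a2 b1 b2 h2)

end Pool.Agent.K3h99.AF
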