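import Mathlib

/-!
# Alternation-free hypergraphs given by their incidence matrices
-/

set_option autoImplicit false

namespace Pool.Agent.K3h99.AF

/-- The sets `A` and `B` of elements of a linearly ordered set form an `(AB)^{t/2}`-sequence: there
are `x_0 < x_1 < ⋯ < x_{t-1}` which are alternately in `A \ B` and in `B \ A`, the first one in
`A \ B`. -/
def Seq {V : Type} [LinearOrder V] (t : ℕ) (A B : Set V) : Prop :=
  ∃ x : Fin t → V, StrictMono x ∧ (∀ i : Fin t, i.val % 2 = 0 → x i ∈ A \ B) ∧
    ∀ i : Fin t, i.val % 2 = 1 → x i ∈ B \ A

/-- The hypergraph with (unordered) vertex set `V` and the set `E` of hyperedges is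
`(AB)^{t/2}`-free: for some linear order of the vertices no two hyperedges form an
`(AB)^{t/2}`-sequence. -/
def Free {V : Type} (t : ℕ) (E : Set (Set V)) : Prop :=
  ∃ _ : LinearOrder V, ∀ A ∈ E, ∀ B ∈ E, ¬ Seq t A B

/-- The number of columns of a matrix given by the list of its rows. -/
def width (M : List (List Bool)) : ℕ := (M.getD 0 []).length

/-- The list `M` is the list of the rows of a 0-1 matrix: all rows have the same length. -/
def IsMatrix (M : List (List Bool)) : Prop := ∀ r ∈ M, r.length = width M

/-- The hyperedges of the hypergraph with incidence matrix `M`: the vertices are the rows, and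
every column is the characteristic function of a hyperedge. -/
def edges (M : List (List Bool)) : Set (Set (Fin M.length)) :=
  {A | ∃ j < width M, A = {i | (M[i]).getD j false = true}}

/-- The decision problem: given a 0-1 matrix, is the hypergraph with this incidence matrix
`(AB)^{t/2}`-free? -/
def Recognition (t : ℕ) (M : List (List Bool)) : Prop := IsMatrix M ∧ Free t (edges M)

end Pool.Agent.K3h99.AF
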