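import Pool.Agent.K3h99.AF.Defs
import Pool.Agent.H671R2.PolyAuto
import Pool.Agent.NPC.Dec

/-!
# Membership in `NP`
-/

set_option autoImplicit false

namespace Pool.Agent.K3h99.AF

open Pool.Agent.NPC

/-- there are `t` increasing positions `≥ k` of `w` with entries alternately in `A \ B` and in
`B \ A` -/
def altT : ℕ → List ℕ → List ℕ → List ℕ → ℕ → Bool
  | 0, _, _, _, _ => true
  | t + 1, w, A, B, k => w.zipIdx.any fun p => decide (k ≤ p.2) &&
      ((decide (p.1 ∈ A) && !decide (p.1 ∈ B)) && altT t w B A (p.2 + 1))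

theorem altT_iff (t : ℕ) : ∀ (w A B : List ℕ) (k : ℕ), altT t w A B k = true ↔
    ∃ x : Fin t → ℕ, (∀ i, k ≤ x i) ∧ (∀ i j, i < j → x i < x j) ∧
      ∀ i : Fin t, ∃ v, w[x i]? = some v ∧ (i.val % 2 = 0 → v ∈ A ∧ v ∉ B) ∧
        (i.val % 2 = 1 → v ∈ B ∧ v ∉ A) := by
  induction t with
  | zero =>
    intro w A B k
    simp only [altT, true_iff]
    exact ⟨fun i => i.elim0, fun i => i.elim0, fun i => i.elim0, fun i => i.elim0⟩
  | succ t ih =>
    intro w A B k
    simp only [altT, List.any_eq_true, Bool.and_eq_true, decide_eq_true_eq, Bool.not_eq_true',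
      decide_eq_false_iff_not, Prod.exists, List.mem_zipIdx_iff_getElem?, ih]
    constructor
    · rintro ⟨v, j, hv, hk, ⟨h1, h2⟩, x, x1, x2, x3⟩
      refine ⟨Fin.cons j x, fun i => ?_, fun i i' => ?_, fun i => ?_⟩
      · refine Fin.cases ?_ (fun i => ?_) i
        · simpa using hk
        · rw [Fin.cons_succ]
          have := x1 i
          omega
      · refine Fin.cases ?_ (fun i => ?_) i
        · refine Fin.cases ?_ (fun i' => ?_) i'
          · intro h; exact absurd h (lt_irrefl _)
          · intro _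
            rw [Fin.cons_zero, Fin.cons_succ]
            have := x1 i'
            omega
        · refine Fin.cases ?_ (fun i' => ?_) i'
          · intro h; exact absurd h (by simp)
          · intro h
            rw [Fin.cons_succ, Fin.cons_succ]
            exact x2 _ _ (by simpa using h)
      · refine Fin.cases ?_ (fun i => ?_) i
        · rw [Fin.cons_zero]
          exact ⟨v, hv, fun _ => ⟨h1, h2⟩, fun h => absurd h (by simp)⟩
        · rw [Fin.cons_succ]
          obtain ⟨u, u1, u2, u3⟩ := x3 i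
          refine ⟨u, u1, fun h => ?_, fun h => ?_⟩
          · rw [Fin.val_succ] at h
            exact u3 (by omega)
          · rw [Fin.val_succ] at h
            exact u2 (by omega)
    · rintro ⟨x, x1, x2, x3⟩
      obtain ⟨v, v1, v2, -⟩ := x3 0
      refine ⟨v, x 0, v1, x1 0, v2 (by simp), fun i => x i.succ, fun i => ?_, fun i j h => ?_,
        fun i => ?_⟩
      · exact x2 0 i.succ (Fin.succ_pos i)
      · exact x2 _ _ (by simpa using h)
      · obtain ⟨u, u1, u2, u3⟩ := x3 i.succ
        refine ⟨u, u1, fun h => ?_, fun h => ?_⟩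
        · exact u3 (by rw [Fin.val_succ]; omega)
        · exact u2 (by rw [Fin.val_succ]; omega)

theorem altT_poly (t : ℕ) : ∀ {α : Type} [TEnc α] {w A B : α → List ℕ} {k : α → ℕ}
    (_ : Poly w) (_ : Poly A) (_ : Poly B) (_ : Poly k),
    Poly (fun a => altT t (w a) (A a) (B a) (k a)) := by
  induction t with
  | zero =>
    intro α _ w A B k _ _ _ _
    simp only [altT]
    exact NPC.Poly.const true
  | succ t ih =>
    intro α _ w A B k hw hA hB hk
    simp only [altT]
    refine NPC.Poly.any (l := fun a => (w a).zipIdx) (p := fun a (p : ℕ × ℕ) =>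
      decide (k a ≤ p.2) && ((decide (p.1 ∈ A a) && !decide (p.1 ∈ B a)) &&
        altT t (w a) (B a) (A a) (p.2 + 1))) (by fun_prop) ?_
    exact NPC.Poly.and (by fun_prop) (NPC.Poly.and (by fun_prop)
      (ih (w := fun q : α × (ℕ × ℕ) => w q.1) (A := fun q : α × (ℕ × ℕ) => B q.1)
        (B := fun q : α × (ℕ × ℕ) => A q.1) (k := fun q : α × (ℕ × ℕ) => q.2.2 + 1)
        (by fun_prop) (by fun_prop) (by fun_prop) (by fun_prop)))

/-- the test of a certificate, an ordered list of the vertices -/
def certT (t : ℕ) (x : Hyp × List ℕ) : Bool :=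
  (x.1.2.all fun e => e.all fun v => decide (v ∈ x.1.1)) &&
  ((x.1.1.all fun v => decide (v ∈ x.2)) &&
  (x.1.2.all fun A => x.1.2.all fun B => !altT t x.2 A B 0))

theorem certT_poly (t : ℕ) : Poly (certT t) := by
  unfold certT
  refine NPC.Poly.and (by fun_prop) (NPC.Poly.and (by fun_prop) ?_)
  refine NPC.Poly.all (l := fun x : Hyp × List ℕ => x.1.2) (p := fun x A =>
    x.1.2.all fun B => !altT t x.2 A B 0) (by fun_prop) ?_
  refine NPC.Poly.all (l := fun y : (Hyp × List ℕ) × List ℕ => y.1.1.2) (p := fun y B =>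
    !altT t y.1.2 y.2 B 0) (by fun_prop) ?_
  exact NPC.Poly.not (altT_poly t (w := fun z : ((Hyp × List ℕ) × List ℕ) × List ℕ => z.1.1.2)
    (A := fun z => z.1.2) (B := fun z => z.2) (k := fun _ => 0) (by fun_prop) (by fun_prop)
    (by fun_prop) (by fun_prop))

theorem cert_key (t : ℕ) (H : Hyp) (w : List ℕ) : certT t (H, w) = true ↔ IsHyp H ∧
    (∀ v ∈ H.1, v ∈ w) ∧ ∀ A ∈ H.2, ∀ B ∈ H.2, ¬ altT t w A B 0 = true := by
  unfold certT IsHyp
  simp only [Bool.and_eq_true, List.all_eq_true, decide_eq_true_eq, Bool.not_eq_true',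
    Bool.not_eq_true]

theorem cert_sound {t : ℕ} {H : Hyp} {w : List ℕ} (hw : certT t (H, w) = true) :
    AltFree t H := by
  obtain ⟨h1, h2, h3⟩ := (cert_key t H w).1 hw
  refine ⟨h1, fun v => (w.idxOf v : ℤ), fun u hu v hv huv => ?_, fun A hA B hB hF => ?_⟩
  · have huv : w.idxOf u = w.idxOf v := Int.ofNat.inj huv
    have e1 := List.getElem_idxOf (List.idxOf_lt_length_iff.2 (h2 u hu))
    have e2 := List.getElem_idxOf (List.idxOf_lt_length_iff.2 (h2 v hv))
    rw [← e1, ← e2]
    simp only [huv]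
  · refine h3 A hA B hB ((altT_iff t w A B 0).2 ?_)
    obtain ⟨x, x1, x2, x3, x4⟩ := hF
    refine ⟨fun i => w.idxOf (x i), fun i => Nat.zero_le _, fun i j hij => ?_, fun i => ?_⟩
    · exact Int.ofNat_lt.1 (x2 i j hij)
    · refine ⟨x i, ?_, x3 i, x4 i⟩
      have hl := List.idxOf_lt_length_iff.2 (h2 (x i) (x1 i))
      rw [List.getElem?_eq_getElem hl, List.getElem_idxOf hl]

theorem cert_iff (t : ℕ) (H : Hyp) : AltFree t H ↔ ∃ w : List ℕ,
    sz w ≤ (Polynomial.X * (Polynomial.X + 1) + 1 : Polynomial ℕ).eval (sz H) ∧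
      certT t (H, w) = true := by
  constructor
  · rintro ⟨h1, f, hf, hfree⟩
    set w := H.1.dedup.insertionSort (fun a b => f a ≤ f b) with hw
    have hperm : w.Perm H.1.dedup := List.perm_insertionSort _ _
    have hmem : ∀ v, v ∈ w ↔ v ∈ H.1 := fun v => by rw [hperm.mem_iff, List.mem_dedup]
    have hnd : w.Nodup := hperm.nodup_iff.2 (List.nodup_dedup _)
    have htot : Std.Total (fun a b : ℕ => f a ≤ f b) := ⟨fun a b => le_total _ _⟩
    have htr : IsTrans ℕ (fun a b => f a ≤ f b) := ⟨fun a b c => le_trans⟩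
    have hsort : w.Pairwise (fun a b => f a ≤ f b) := List.pairwise_insertionSort _ _
    refine ⟨w, ?_, (cert_key t H w).2 ⟨h1, fun v hv => (hmem v).2 hv, fun A hA B hB halt => ?_⟩⟩
    · have e1 : sz H = sz H.1 + sz H.2 + 1 := sz_pair H.1 H.2
      have e2 := sz_le_length_mul w (sz H) (fun a ha => by
        have := sz_le_of_mem ((hmem a).1 ha)
        omega)
      have e3 : w.length ≤ sz H := by
        have h1 := hperm.length_eq
        have h2 := (List.dedup_sublist H.1).length_le
        have h3 := length_lt_sz H.1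
        omega
      simp only [Polynomial.eval_add, Polynomial.eval_mul, Polynomial.eval_X,
        Polynomial.eval_one]
      nlinarith
    · refine hfree A hA B hB ?_
      obtain ⟨x, -, x2, x3⟩ := (altT_iff t w A B 0).1 halt
      choose v v1 v2 v3 using x3
      have hlt : ∀ i, x i < w.length := fun i => by
        have := v1 i
        exact (List.getElem?_eq_some_iff.1 this).1
      have hv : ∀ i, w[x i]'(hlt i) = v i := fun i => (List.getElem?_eq_some_iff.1 (v1 i)).2
      have hvw : ∀ i, v i ∈ w := fun i => by rw [← hv i]; exact List.getElem_mem _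
      refine ⟨v, fun i => (hmem _).1 (hvw i), fun i j hij => ?_, v2, v3⟩
      have hle : f (v i) ≤ f (v j) := by
        have := List.pairwise_iff_getElem.1 hsort (x i) (x j) (hlt i) (hlt j) (x2 i j hij)
        rwa [hv i, hv j] at this
      refine lt_of_le_of_ne hle fun he => ?_
      have h2 : v i = v j := hf ((hmem _).1 (hvw i)) ((hmem _).1 (hvw j)) he
      rw [← hv i, ← hv j] at h2
      have h3 := (List.Nodup.getElem_inj_iff hnd).1 h2
      have := x2 i j hij
      omega
  · rintro ⟨w, -, hw⟩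
    exact cert_sound hw

theorem inNPP (t : ℕ) : InNPP (AltFree t) :=
  inNPP_of (certT_poly t) _ (cert_iff t)

end Pool.Agent.K3h99.AF
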