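import Pool.Agent.K3h99.AF.Five
import Pool.Agent.H495R3.CyPoly

/-!
# The reductions for `t = 4`, `t = 5` and `t + 2`
-/

set_option autoImplicit false

namespace Pool.Agent.K3h99.AF

open Pool.Agent.H495R3.Cy Pool.Agent.NPC

variable {α : Type} [TEnc α]

theorem fib_poly {n K x : α → ℕ} (hn : UPoly n) (hK : UPoly K) (hx : Poly x) :
    Poly (fun a => fib (n a) (K a) (x a)) := by
  have hn' : Poly n := hn.toPoly
  unfold fib
  exact NPC.Poly.filter (hK.mul hn).range (by fun_prop)

theorem cof_poly {n K x : α → ℕ} (hn : UPoly n) (hK : UPoly K) (hx : Poly x) :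
    Poly (fun a => cof (n a) (K a) (x a)) := by
  have hn' : Poly n := hn.toPoly
  unfold cof
  exact NPC.Poly.filter (hK.mul hn).range (by fun_prop)

theorem gad_poly {n K j : α → ℕ} {F : α → List ℕ} (hn : UPoly n) (hK : UPoly K) (hj : Poly j)
    (hF : Poly F) : Poly (fun a => gad (n a) (K a) (j a) (F a)) := by
  have hn' : Poly n := hn.toPoly
  unfold gad
  exact NPC.Poly.filter (hK.mul hn).range (by fun_prop)

theorem hyp4_poly {n : α → ℕ} {Q : α → List Quad} (hn : UPoly n) (hQ : Poly Q) :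
    Poly (fun a => hyp4 (n a) (Q a)) := by
  have hK : UPoly (fun a => (Q a).length + 1) := (UPoly.length hQ).add (UPoly.const 1)
  unfold hyp4
  refine NPC.Poly.pair (hK.mul hn).range ?_
  refine NPC.Poly.append (NPC.Poly.map (F := fun a x => fib (n a) ((Q a).length + 1) x) hn.range
    (fib_poly (hn.comp (NPC.Poly.fst NPC.Poly.id)) (hK.comp (NPC.Poly.fst NPC.Poly.id))
      (NPC.Poly.snd NPC.Poly.id))) ?_
  refine NPC.Poly.append (NPC.Poly.map (F := fun a x => cof (n a) ((Q a).length + 1) x) hn.range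
    (cof_poly (hn.comp (NPC.Poly.fst NPC.Poly.id)) (hK.comp (NPC.Poly.fst NPC.Poly.id))
      (NPC.Poly.snd NPC.Poly.id))) ?_
  refine NPC.Poly.append (NPC.Poly.map (F := fun a (p : Quad × ℕ) =>
      gad (n a) ((Q a).length + 1) p.2 [p.1.1, p.1.2.2.1]) (by fun_prop)
    (gad_poly (hn.comp (NPC.Poly.fst NPC.Poly.id)) (hK.comp (NPC.Poly.fst NPC.Poly.id))
      (by fun_prop) (by fun_prop))) ?_
  exact NPC.Poly.map (F := fun a (p : Quad × ℕ) =>
      gad (n a) ((Q a).length + 1) p.2 [p.1.2.1, p.1.2.2.2]) (by fun_prop)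
    (gad_poly (hn.comp (NPC.Poly.fst NPC.Poly.id)) (hK.comp (NPC.Poly.fst NPC.Poly.id))
      (by fun_prop) (by fun_prop))

theorem jk_poly {M : α → ℕ} (hM : UPoly M) : Poly (fun a => jk (M a)) := by
  have hM' : Poly M := hM.toPoly
  unfold jk
  exact NPC.Poly.map (F := fun a i => i + M a) (hM.add (UPoly.const 2)).range (by fun_prop)

theorem hyp5_poly {n : α → ℕ} {Q : α → List Quad} (hn : UPoly n) (hQ : Poly Q) :
    Poly (fun a => hyp5 (n a) (Q a)) := by
  have hK : UPoly (fun a => (Q a).length + 1) := (UPoly.length hQ).add (UPoly.const 1)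
  have hj : Poly (fun a => jk (((Q a).length + 1) * n a)) := jk_poly (hK.mul hn)
  unfold hyp5
  refine NPC.Poly.pair (NPC.Poly.append (hK.mul hn).range hj) ?_
  refine NPC.Poly.append (NPC.Poly.map (F := fun a x => fib (n a) ((Q a).length + 1) x) hn.range
    (fib_poly (hn.comp (NPC.Poly.fst NPC.Poly.id)) (hK.comp (NPC.Poly.fst NPC.Poly.id))
      (NPC.Poly.snd NPC.Poly.id))) ?_
  refine NPC.Poly.append (NPC.Poly.map (F := fun a x => cof (n a) ((Q a).length + 1) x) hn.range
    (cof_poly (hn.comp (NPC.Poly.fst NPC.Poly.id)) (hK.comp (NPC.Poly.fst NPC.Poly.id))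
      (NPC.Poly.snd NPC.Poly.id))) ?_
  refine NPC.Poly.append (NPC.Poly.flatMap (F := fun a (p : Quad × ℕ) =>
      (jk (((Q a).length + 1) * n a)).map fun z =>
        z :: gad (n a) ((Q a).length + 1) p.2 [p.1.2.2.1]) (by fun_prop) ?_) ?_
  · exact NPC.Poly.map (F := fun (x : α × (Quad × ℕ)) z =>
        z :: gad (n x.1) ((Q x.1).length + 1) x.2.2 [x.2.1.2.2.1])
      (hj.comp (NPC.Poly.fst NPC.Poly.id))
      (NPC.Poly.cons (by fun_prop) (gad_poly
        (hn.comp (NPC.Poly.fst (NPC.Poly.fst NPC.Poly.id)))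
        (hK.comp (NPC.Poly.fst (NPC.Poly.fst NPC.Poly.id)))
        (by fun_prop) (by fun_prop)))
  refine NPC.Poly.flatMap (F := fun a (p : Quad × ℕ) =>
      (jk (((Q a).length + 1) * n a)).map fun z =>
        z :: gad (n a) ((Q a).length + 1) p.2 [p.1.2.1, p.1.2.2.2]) (by fun_prop) ?_
  exact NPC.Poly.map (F := fun (x : α × (Quad × ℕ)) z =>
        z :: gad (n x.1) ((Q x.1).length + 1) x.2.2 [x.2.1.2.1, x.2.1.2.2.2])
      (hj.comp (NPC.Poly.fst NPC.Poly.id))
      (NPC.Poly.cons (by fun_prop) (gad_poly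
        (hn.comp (NPC.Poly.fst (NPC.Poly.fst NPC.Poly.id)))
        (hK.comp (NPC.Poly.fst (NPC.Poly.fst NPC.Poly.id)))
        (by fun_prop) (by fun_prop)))

theorem jokers_poly {H : α → Hyp} (hH : Poly H) : Poly (fun a => jokers (H a)) := by
  unfold jokers
  exact NPC.Poly.map (F := fun a i => i + ((H a).1.sum + (H a).2.flatten.sum + 1))
    ((UPoly.length (NPC.Poly.fst hH)).add (UPoly.const 2)).range (by fun_prop)

theorem ext_poly : Poly (fun H : Hyp => ext H) := by
  have hj : Poly (fun H : Hyp => jokers H) := jokers_poly NPC.Poly.id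
  unfold ext
  refine NPC.Poly.pair (NPC.Poly.append (by fun_prop) hj) ?_
  refine NPC.Poly.flatMap (F := fun (H : Hyp) (A : List ℕ) => (jokers H).map fun z => z :: A)
    (by fun_prop) ?_
  exact NPC.Poly.map (F := fun (x : Hyp × List ℕ) z => z :: x.2)
      (hj.comp (NPC.Poly.fst NPC.Poly.id)) (by fun_prop)

/-- the element numbers are bounded by the number of clauses -/
theorem els_mem_iff {φ : List Cl} : {x | x ∈ els φ} = {x | x < 3 + 8 * φ.length} := by
  ext x
  exact mem_els x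

theorem correct4 {φ : List Cl} (hd : Distinct3 φ) (hb : Bounded3 φ) :
    SAT3 φ ↔ AltFree 4 (hyp4 (3 + 8 * φ.length) (quads φ)) := by
  constructor
  · intro h
    obtain ⟨g, hg, hs⟩ := sat_to_solv hd hb h
    rw [els_mem_iff] at hg
    exact complete4 hg hs
  · intro h
    exact solv_to_sat hd hb (sound4 (quads_ok hd hb) h)

end Pool.Agent.K3h99.AF
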