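import Pool.Agent.K3h99.AF.Red

/-!
# The reduction for `t = 5`
-/

set_option autoImplicit false

namespace Pool.Agent.K3h99.AF

open Pool.Agent.H495R3.Cy Pool.Agent.NPC

/-- a shifted quadruple -/
def shq (d : ℕ) (q : Quad) : Quad := (q.1 + d, q.2.1 + d, q.2.2.1 + d, q.2.2.2 + d)

/-- three copies -/
def quads5 (n : ℕ) (Q : List Quad) : List Quad := [0, 1, 2].flatMap fun r => Q.map (shq (r * n))

theorem mem_quads5 {n : ℕ} {Q : List Quad} {p : Quad} : p ∈ quads5 n Q ↔
    ∃ r < 3, ∃ q ∈ Q, p = shq (r * n) q := by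
  unfold quads5
  simp only [List.mem_flatMap, List.mem_map, List.mem_cons, List.not_mem_nil, or_false]
  constructor
  · rintro ⟨r, hr, q, hq, rfl⟩
    exact ⟨r, by omega, q, hq, rfl⟩
  · rintro ⟨r, hr, q, hq, rfl⟩
    exact ⟨r, by omega, q, hq, rfl⟩

/-- a bound for the values on the first `n` numbers -/
theorem exists_bound (g : ℕ → ℤ) (n : ℕ) : ∃ D : ℤ, ∀ x < n, -D < g x ∧ g x < D := by
  refine ⟨∑ x ∈ Finset.range n, |g x| + 1, fun x hx => ?_⟩
  have h1 : |g x| ≤ ∑ x ∈ Finset.range n, |g x| :=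
    Finset.single_le_sum (f := fun x => |g x|) (fun i _ => abs_nonneg _) (Finset.mem_range.2 hx)
  have h2 := abs_le.1 h1
  constructor <;> linarith [h2.1, h2.2]

/-- cutting the circle at `0` -/
theorem cut_zero {n : ℕ} {Q : List Quad} (h0 : ∀ q ∈ Q, q.1 = 0)
    (hQ : QOk (List.range n) Q) (h : Solv (List.range n) Q) :
    ∃ g : ℕ → ℤ, Set.InjOn g {x | x < n} ∧ ∀ q ∈ Q, NB g q.2.2.1 q.2.1 q.2.2.2 := by
  obtain ⟨g, hg, hs⟩ := h
  obtain ⟨D, hD⟩ := exists_bound g n
  have hg' : ∀ x y, x < n → y < n → g x = g y → x = y := fun x y hx hy e =>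
    hg (show x ∈ List.range n from List.mem_range.2 hx)
      (show y ∈ List.range n from List.mem_range.2 hy) e
  refine ⟨fun x => if g x < g 0 then g x + 2 * D else g x, ?_, ?_⟩
  · intro x hx y hy hxy
    have hx : x < n := hx
    have hy : y < n := hy
    have h1 := hD x hx
    have h2 := hD y hy
    have h3 := hg' x y hx hy
    simp only at hxy
    split_ifs at hxy with c1 c2 c2 <;> first | exact h3 (by omega) | (exfalso; omega)
  · intro q hq
    have e0 := h0 q hq
    obtain ⟨q1, q2, q3, q4, n1, n2, n3, n4, n5, n6⟩ := hQ q hq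
    rw [List.mem_range] at q1 q2 q3 q4
    have hh := hs q hq
    rw [e0] at hh n1 n2 n3 q1
    have d0 := hD _ q1
    have d1 := hD _ q2
    have d2 := hD _ q3
    have d3 := hD _ q4
    have m1 : g 0 ≠ g q.2.1 := fun e => n1 (hg' _ _ q1 q2 e)
    have m2 : g 0 ≠ g q.2.2.1 := fun e => n2 (hg' _ _ q1 q3 e)
    have m3 : g 0 ≠ g q.2.2.2 := fun e => n3 (hg' _ _ q1 q4 e)
    have m4 : g q.2.1 ≠ g q.2.2.1 := fun e => n4 (hg' _ _ q2 q3 e)
    have m5 : g q.2.2.1 ≠ g q.2.2.2 := fun e => n6 (hg' _ _ q3 q4 e)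
    unfold NonSep H495R3.Cy.Btw at hh
    unfold NB
    beta_reduce
    generalize g 0 = z at *
    generalize g q.2.1 = b at *
    generalize g q.2.2.1 = a at *
    generalize g q.2.2.2 = c at *
    clear hs hg' hg hD
    split_ifs <;> omega

/-- the zeroth components -/
theorem quads_zero {φ : List Cl} : ∀ q ∈ quads φ, q.1 = 0 := by
  intro q hq
  obtain ⟨a, b, c, -, hq⟩ := (mem_quads q).1 hq
  simp only [betw, List.mem_cons, List.not_mem_nil, or_false] at hq
  rcases hq with rfl | rfl <;> rfl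

/-- the values on the three copies -/
theorem three_copies {n : ℕ} {Q : List Quad} (hn : 0 < n) (hQ : QOk (List.range n) Q) {g : ℕ → ℤ}
    (hg : Set.InjOn g {x | x < n}) (hs : ∀ q ∈ Q, NB g q.2.2.1 q.2.1 q.2.2.2) :
    ∃ g' : ℕ → ℤ, Set.InjOn g' {x | x < 3 * n} ∧
      ∀ q ∈ quads5 n Q, NB g' q.2.2.1 q.2.1 q.2.2.2 := by
  obtain ⟨D, hD⟩ := exists_bound g n
  refine ⟨fun x => g (x % n) + (x / n : ℕ) * (2 * D), ?_, ?_⟩
  · intro x hx y hy hxy
    simp only at hxy
    have h1 := hD (x % n) (Nat.mod_lt _ hn)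
    have h2 := hD (y % n) (Nat.mod_lt _ hn)
    have h4 : x / n = y / n := by
      rcases lt_trichotomy (x / n) (y / n) with h | h | h
      · exfalso
        have : (((x / n : ℕ) : ℤ) + 1) * (2 * D) ≤ ((y / n : ℕ) : ℤ) * (2 * D) :=
          mul_le_mul_of_nonneg_right (by omega) (by omega)
        rw [add_mul, one_mul] at this
        linarith
      · exact h
      · exfalso
        have : (((y / n : ℕ) : ℤ) + 1) * (2 * D) ≤ ((x / n : ℕ) : ℤ) * (2 * D) :=
          mul_le_mul_of_nonneg_right (by omega) (by omega)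
        rw [add_mul, one_mul] at this
        linarith
    rw [h4] at hxy
    have h5 : x % n = y % n := hg (Nat.mod_lt _ hn) (Nat.mod_lt _ hn) (by linarith)
    rw [← Nat.div_add_mod x n, ← Nat.div_add_mod y n, h4, h5]
  · intro p hp
    obtain ⟨r, hr, q, hq, rfl⟩ := mem_quads5.1 hp
    obtain ⟨q1, q2, q3, q4, -⟩ := hQ q hq
    rw [List.mem_range] at q1 q2 q3 q4
    have key : ∀ x, x < n → g ((x + r * n) % n) + ((((x + r * n) / n : ℕ)) : ℤ) * (2 * D) =
        g x + (r : ℤ) * (2 * D) := by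
      intro x hx
      rw [Nat.add_mul_mod_self_right, Nat.mod_eq_of_lt hx, Nat.add_mul_div_right _ _ hn,
        Nat.div_eq_of_lt hx, Nat.zero_add]
    have hh := hs q hq
    unfold NB at hh ⊢
    simp only [shq]
    rw [key _ q2, key _ q3, key _ q4]
    omega

/-- a solution from one good copy -/
theorem from_copy {n : ℕ} {Q : List Quad} (hn : 0 < n) (h0 : ∀ q ∈ Q, q.1 = 0)
    (hQ : QOk (List.range n) Q) {g : ℕ → ℤ} (hg : Set.InjOn g {x | x < 3 * n}) {e₁ e₂ : ℕ}
    (hs : ∀ q ∈ quads5 n Q,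
      q.2.1 ≠ e₁ → q.2.2.1 ≠ e₁ → q.2.2.2 ≠ e₁ → q.2.1 ≠ e₂ → q.2.2.1 ≠ e₂ → q.2.2.2 ≠ e₂ →
      NB g q.2.2.1 q.2.1 q.2.2.2) : Solv (List.range n) Q := by
  obtain ⟨r, hr, hr1, hr2⟩ : ∃ r < 3, r ≠ e₁ / n ∧ r ≠ e₂ / n := by
    by_contra hcon
    push Not at hcon
    have a0 := hcon 0 (by omega)
    have a1 := hcon 1 (by omega)
    have a2 := hcon 2 (by omega)
    omega
  obtain ⟨D, hD⟩ := exists_bound g (3 * n)
  have hlt : ∀ x, x < n → x + r * n < 3 * n := by
    intro x hx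
    have : r * n ≤ 2 * n := Nat.mul_le_mul_right _ (by omega)
    omega
  have hdiv : ∀ x, x < n → (x + r * n) / n = r := by
    intro x hx
    rw [Nat.add_mul_div_right _ _ hn, Nat.div_eq_of_lt hx, Nat.zero_add]
  have hne1 : ∀ x, x < n → x + r * n ≠ e₁ := fun x hx e => hr1 (by rw [← e, hdiv x hx])
  have hne2 : ∀ x, x < n → x + r * n ≠ e₂ := fun x hx e => hr2 (by rw [← e, hdiv x hx])
  refine ⟨fun x => if x = 0 then -D else g (x + r * n), ?_, ?_⟩
  · intro x hx y hy hxy
    have hx : x < n := List.mem_range.1 hx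
    have hy : y < n := List.mem_range.1 hy
    simp only at hxy
    have h1 := hD _ (hlt x hx)
    have h2 := hD _ (hlt y hy)
    split_ifs at hxy with c1 c2 c2
    · omega
    · omega
    · omega
    · have := hg (show x + r * n ∈ {x | x < 3 * n} from hlt x hx)
        (show y + r * n ∈ {x | x < 3 * n} from hlt y hy) hxy
      omega
  · intro q hq
    have e0 := h0 q hq
    obtain ⟨q1, q2, q3, q4, n1, n2, n3, n4, n5, n6⟩ := hQ q hq
    rw [List.mem_range] at q1 q2 q3 q4
    rw [e0] at n1 n2 n3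
    have hh : NB g (q.2.2.1 + r * n) (q.2.1 + r * n) (q.2.2.2 + r * n) :=
      hs (shq (r * n) q) (mem_quads5.2 ⟨r, hr, q, hq, rfl⟩) (hne1 _ q2) (hne1 _ q3) (hne1 _ q4)
        (hne2 _ q2) (hne2 _ q3) (hne2 _ q4)
    have d1 := hD _ (hlt _ q2)
    have d2 := hD _ (hlt _ q3)
    have d3 := hD _ (hlt _ q4)
    have m1 : g (q.2.1 + r * n) ≠ g (q.2.2.1 + r * n) := fun e => n4 (by
      have := hg (show q.2.1 + r * n ∈ {x | x < 3 * n} from hlt _ q2)
        (show q.2.2.1 + r * n ∈ {x | x < 3 * n} from hlt _ q3) e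
      omega)
    have m2 : g (q.2.2.1 + r * n) ≠ g (q.2.2.2 + r * n) := fun e => n6 (by
      have := hg (show q.2.2.1 + r * n ∈ {x | x < 3 * n} from hlt _ q3)
        (show q.2.2.2 + r * n ∈ {x | x < 3 * n} from hlt _ q4) e
      omega)
    unfold NonSep H495R3.Cy.Btw
    unfold NB at hh
    simp only [e0, if_true, if_neg n1.symm, if_neg n2.symm, if_neg n3.symm]
    generalize g (q.2.1 + r * n) = b at *
    generalize g (q.2.2.1 + r * n) = a at *
    generalize g (q.2.2.2 + r * n) = c at *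
    clear hs hg hD
    omega

theorem shq_poly {α : Type} [TEnc α] {d : α → ℕ} {q : α → Quad} (hd : Poly d) (hq : Poly q) :
    Poly (fun a => shq (d a) (q a)) := by
  unfold shq
  fun_prop

attribute [fun_prop] shq_poly

theorem quads5_poly {α : Type} [TEnc α] {n : α → ℕ} {Q : α → List Quad} (hn : Poly n)
    (hQ : Poly Q) : Poly (fun a => quads5 (n a) (Q a)) := by
  unfold quads5
  fun_prop

theorem correct5 {φ : List Cl} (hd : Distinct3 φ) (hb : Bounded3 φ) :
    SAT3 φ ↔ AltFree 5 (hyp5 (3 * (3 + 8 * φ.length))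
      (quads5 (3 + 8 * φ.length) (quads φ))) := by
  have hQ := quads_ok hd hb
  constructor
  · intro h
    obtain ⟨g, hg, hs⟩ := cut_zero quads_zero hQ (sat_to_solv hd hb h)
    obtain ⟨g', hg', hs'⟩ := three_copies (by omega) hQ hg hs
    exact complete5 hg' hs'
  · intro h
    obtain ⟨g, hg, e₁, e₂, hs⟩ := sound5 (n := 3 * (3 + 8 * φ.length))
      (Q := quads5 (3 + 8 * φ.length) (quads φ)) (fun p hp => by
        obtain ⟨r, hr, q, hq, rfl⟩ := mem_quads5.1 hp
        obtain ⟨q1, q2, q3, q4, n1, n2, n3, n4, n5, n6⟩ := hQ q hq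
        rw [mem_els] at q1 q2 q3 q4
        have : r * (3 + 8 * φ.length) ≤ 2 * (3 + 8 * φ.length) :=
          Nat.mul_le_mul_right _ (by omega)
        simp only [shq]
        omega) (by omega) h
    exact solv_to_sat hd hb (from_copy (by omega) quads_zero hQ hg hs)

end Pool.Agent.K3h99.AF
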