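import Pool.Agent.K3h99.AF.Mat
import Pool.Agent.K3h99.AF.Red5
import Pool.Agent.K3h99.AF.Mem

/-!
# From lists to incidence matrices
-/

set_option autoImplicit false

namespace Pool.Agent.K3h99.AF

open Pool.Agent.H495R3.Cy Pool.Agent.NPC

theorem transfer {α : Type} [Fintype α] {t : ℕ} {H : Hyp} (hH : IsHyp H) (ι : α → ℕ)
    (hinj : Function.Injective ι) (himg : ∀ v, v ∈ H.1 ↔ ∃ i, ι i = v) :
    AltFree t H ↔ Free t {A : Set α | ∃ e ∈ H.2, A = {i | ι i ∈ e}} := by
  classical
  constructor
  · rintro ⟨-, f, hf, hfree⟩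
    have hi : Function.Injective (fun i => f (ι i)) := fun i j h =>
      hinj (hf ((himg _).2 ⟨i, rfl⟩) ((himg _).2 ⟨j, rfl⟩) h)
    refine ⟨LinearOrder.lift' (fun i => f (ι i)) hi, ?_⟩
    rintro A ⟨e, he, rfl⟩ B ⟨e', he', rfl⟩ ⟨x, x1, x2, x3⟩
    refine hfree e he e' he' ⟨fun i => ι (x i), fun i => (himg _).2 ⟨_, rfl⟩, fun i j hij => ?_,
      x2, x3⟩
    exact x1 hij
  · rintro ⟨L, hL⟩
    refine ⟨hH, ?_⟩
    have gmono : ∀ i j : α, i < j → ((Finset.univ.filter fun k : α => k < i).card : ℤ) <
        ((Finset.univ.filter fun k : α => k < j).card : ℤ) := by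
      intro i j hij
      have : (Finset.univ.filter fun k : α => k < i) ⊂ (Finset.univ.filter fun k : α => k < j) := by
        refine Finset.ssubset_iff_subset_ne.2 ⟨fun k hk => ?_, fun he => ?_⟩
        · rw [Finset.mem_filter] at hk ⊢
          exact ⟨hk.1, hk.2.trans hij⟩
        · have h1 : i ∈ Finset.univ.filter fun k : α => k < j :=
            Finset.mem_filter.2 ⟨Finset.mem_univ _, hij⟩
          rw [← he, Finset.mem_filter] at h1
          exact lt_irrefl _ h1.2
      exact_mod_cast Finset.card_lt_card this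
    have glt : ∀ i j : α, ((Finset.univ.filter fun k : α => k < i).card : ℤ) <
        ((Finset.univ.filter fun k : α => k < j).card : ℤ) → i < j := by
      intro i j h
      rcases lt_trichotomy i j with h' | h' | h'
      · exact h'
      · subst h'; exact absurd h (lt_irrefl _)
      · exact absurd (gmono _ _ h') (by omega)
    set f : ℕ → ℤ := fun v => if h : ∃ i, ι i = v then
      ((Finset.univ.filter fun k : α => k < h.choose).card : ℤ) else 0 with hfdef
    have hf : ∀ i, f (ι i) = ((Finset.univ.filter fun k : α => k < i).card : ℤ) := by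
      intro i
      have h : ∃ i', ι i' = ι i := ⟨i, rfl⟩
      have h2 : h.choose = i := hinj h.choose_spec
      simp only [hfdef]
      rw [dif_pos h, h2]
    refine ⟨f, ?_, ?_⟩
    · intro u hu v hv huv
      obtain ⟨i, rfl⟩ := (himg _).1 hu
      obtain ⟨j, rfl⟩ := (himg _).1 hv
      rw [hf, hf] at huv
      rcases lt_trichotomy i j with h' | h' | h'
      · exact absurd (gmono _ _ h') (by omega)
      · rw [h']
      · exact absurd (gmono _ _ h') (by omega)
    · rintro e he e' he' ⟨x, x1, x2, x3, x4⟩
      choose y hy using fun i => (himg _).1 (x1 i)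
      refine hL _ ⟨e, he, rfl⟩ _ ⟨e', he', rfl⟩ ⟨y, fun i j hij => ?_, fun i hi => ?_,
        fun i hi => ?_⟩
      · have := x2 i j hij
        rw [← hy i, ← hy j, hf, hf] at this
        exact glt _ _ this
      · have := x3 i hi
        rw [← hy i] at this
        exact this
      · have := x4 i hi
        rw [← hy i] at this
        exact this

/-- what is guaranteed by the reductions -/
def Good (H : Hyp) : Prop := IsHyp H ∧ H.1.Nodup ∧ H.1 ≠ []

/-- the incidence matrix -/
def matOf (H : Hyp) : List (List Bool) := H.1.map fun v => H.2.map fun e => decide (v ∈ e)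

theorem matOf_poly : Poly matOf := by
  unfold matOf
  fun_prop

theorem recognition_matOf {t : ℕ} {H : Hyp} (hH : Good H) :
    AltFree t H ↔ Recognition t (matOf H) := by
  obtain ⟨h1, h2, h3⟩ := hH
  have hlen : (matOf H).length = H.1.length := by simp [matOf]
  have hget : ∀ i : Fin (matOf H).length, (matOf H)[i] =
      H.2.map fun e => decide (H.1[i.val]'(by rw [← hlen]; exact i.2) ∈ e) := by
    intro i
    show (matOf H)[i.val] = _
    simp [matOf]
  have hrow : ∀ r ∈ matOf H, r.length = H.2.length := by
    intro r hr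
    obtain ⟨v, -, rfl⟩ := List.mem_map.1 hr
    simp
  have hw : width (matOf H) = H.2.length := by
    unfold width
    obtain ⟨v, V, hV⟩ := List.exists_cons_of_ne_nil h3
    simp [matOf, hV]
  have hM : IsMatrix (matOf H) := fun r hr => by rw [hrow r hr, hw]
  set ι : Fin (matOf H).length → ℕ := fun i => H.1[i.val]'(by rw [← hlen]; exact i.2) with hι
  have hinj : Function.Injective ι := fun i j h =>
    Fin.ext ((List.Nodup.getElem_inj_iff h2).1 h)
  have himg : ∀ v, v ∈ H.1 ↔ ∃ i, ι i = v := by
    intro v
    constructor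
    · intro hv
      obtain ⟨i, hi, rfl⟩ := List.getElem_of_mem hv
      exact ⟨⟨i, by omega⟩, rfl⟩
    · rintro ⟨i, rfl⟩
      exact List.getElem_mem _
  have hE : edges (matOf H) = {A | ∃ e ∈ H.2, A = {i | ι i ∈ e}} := by
    ext A
    unfold edges
    simp only [Set.mem_ofPred_eq]
    constructor
    · rintro ⟨j, hj, rfl⟩
      rw [hw] at hj
      refine ⟨H.2[j], List.getElem_mem _, ?_⟩
      ext i
      simp only [Set.mem_ofPred_eq]
      rw [hget i, List.getD_eq_getElem _ _ (by simpa using hj)]
      simp [hι]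
    · rintro ⟨e, he, rfl⟩
      obtain ⟨j, hj, rfl⟩ := List.getElem_of_mem he
      refine ⟨j, by rw [hw]; exact hj, ?_⟩
      ext i
      simp only [Set.mem_ofPred_eq]
      rw [hget i, List.getD_eq_getElem _ _ (by simpa using hj)]
      simp [hι]
  rw [transfer h1 ι hinj himg, ← hE]
  exact ⟨fun h => ⟨hM, h⟩, fun h => h.2⟩

theorem good4 {n : ℕ} (hn : 0 < n) (Q : List Quad) : Good (hyp4 n Q) := by
  refine ⟨isHyp4 Q, List.nodup_range, fun h => ?_⟩
  have := congrArg List.length h
  simp [hyp4] at this
  omega

theorem good5 {n : ℕ} (Q : List Quad) : Good (hyp5 n Q) := by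
  refine ⟨isHyp5 Q, ?_, fun h => ?_⟩
  · refine List.nodup_append.2 ⟨List.nodup_range, jk_nodup _, fun a ha b hb => ?_⟩
    rw [List.mem_range] at ha
    rw [mem_jk] at hb
    omega
  · have := congrArg List.length h
    simp [hyp5, jk] at this

theorem good_ext {H : Hyp} (hH : Good H) : Good (ext H) := by
  obtain ⟨h1, h2, h3⟩ := hH
  refine ⟨?_, ?_, fun h => ?_⟩
  · intro e he v hv
    simp only [ext, List.mem_flatMap, List.mem_map] at he
    obtain ⟨A, hA, z, hz, rfl⟩ := he
    show v ∈ H.1 ++ jokers H
    rcases List.mem_cons.1 hv with rfl | hv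
    · exact List.mem_append_right _ hz
    · exact List.mem_append_left _ (h1 A hA v hv)
  · refine List.nodup_append.2 ⟨h2, jokers_nodup H, fun a ha b hb e => ?_⟩
    subst e
    exact joker_not_mem hb ha
  · have : H.1 = [] := by
      simp only [ext, List.append_eq_nil_iff] at h
      exact h.1
    exact h3 this

theorem hardPr4 : HardPr Good (AltFree 4) := by
  refine hardPr_SAT3b.trans (f := fun φ : List Cl =>
    hyp4 (3 + 8 * φ.length) (quads φ)) ?_ (fun _ _ => good4 (by omega) _) ?_
  · exact hyp4_poly ((UPoly.const 3).add ((UPoly.const 8).mul (UPoly.length NPC.Poly.id)))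
      (by fun_prop)
  · rintro φ ⟨hd, hb, -⟩
    exact correct4 hd hb

theorem hardPr5 : HardPr Good (AltFree 5) := by
  refine hardPr_SAT3b.trans (f := fun φ : List Cl =>
    hyp5 (3 * (3 + 8 * φ.length)) (quads5 (3 + 8 * φ.length) (quads φ))) ?_
      (fun _ _ => good5 _) ?_
  · have h1 : UPoly (fun φ : List Cl => 3 + 8 * φ.length) :=
      (UPoly.const 3).add ((UPoly.const 8).mul (UPoly.length NPC.Poly.id))
    exact hyp5_poly ((UPoly.const 3).mul h1) (quads5_poly h1.toPoly (by fun_prop))
  · rintro φ ⟨hd, hb, -⟩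
    exact correct5 hd hb

theorem hardPr_all : ∀ t, 4 ≤ t → HardPr Good (AltFree t)
  | 0, h => absurd h (by omega)
  | 1, h => absurd h (by omega)
  | 2, h => absurd h (by omega)
  | 3, h => absurd h (by omega)
  | 4, _ => hardPr4
  | 5, _ => hardPr5
  | t + 6, _ => (hardPr_all (t + 4) (by omega)).trans ext_poly (fun _ => good_ext)
      fun H _ => ext_correct H

theorem hard_recognition {t : ℕ} (ht : 4 ≤ t) : HardI (Recognition t) :=
  ((hardPr_all t ht).trans (Pr' := fun _ => True) matOf_poly (fun _ _ => trivial)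
    fun _ h => recognition_matOf h).toHardI

/-! ### Membership -/

/-- the list version of a matrix -/
def hypOf (M : List (List Bool)) : Hyp :=
  (List.range M.length, (List.range (M.getD 0 []).length).map fun j =>
    (List.range M.length).filter fun i => (M.getD i []).getD j false)

theorem hypOf_poly : Poly hypOf := by
  have h0 : UPoly (fun M : List (List Bool) => M.length) := UPoly.length NPC.Poly.id
  have h1 : UPoly (fun M : List (List Bool) => (M.getD 0 []).length) :=
    UPoly.length (by fun_prop)
  unfold hypOf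
  refine NPC.Poly.pair h0.range ?_
  refine NPC.Poly.map (F := fun (M : List (List Bool)) j =>
    (List.range M.length).filter fun i => (M.getD i []).getD j false) h1.range ?_
  exact NPC.Poly.filter (l := fun p : List (List Bool) × ℕ => List.range p.1.length)
    (p := fun p i => (p.1.getD i []).getD p.2 false) (h0.comp (NPC.Poly.fst NPC.Poly.id)).range
    (by fun_prop)

theorem recognition_hypOf {t : ℕ} {M : List (List Bool)} :
    Recognition t M ↔ IsMatrix M ∧ AltFree t (hypOf M) := by
  unfold Recognition
  refine and_congr_right fun _ => ?_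
  have h1 : IsHyp (hypOf M) := by
    intro e he v hv
    simp only [hypOf, List.mem_map] at he
    obtain ⟨j, -, rfl⟩ := he
    exact (List.mem_filter.1 hv).1
  have hE : edges M = {A | ∃ e ∈ (hypOf M).2, A = {i : Fin M.length | i.val ∈ e}} := by
    ext A
    unfold edges hypOf width
    simp only [Set.mem_ofPred_eq, List.mem_map, List.mem_range]
    have key : ∀ j, {i : Fin M.length | (M[i]).getD j false = true} =
        {i : Fin M.length | i.val ∈ (List.range M.length).filter
          fun i => (M.getD i []).getD j false} := by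
      intro j
      ext i
      simp only [Set.mem_ofPred_eq, List.mem_filter, List.mem_range]
      rw [List.getD_eq_getElem M _ i.2]
      exact ⟨fun h => ⟨i.2, h⟩, fun h => h.2⟩
    constructor
    · rintro ⟨j, hj, rfl⟩
      exact ⟨_, ⟨j, hj, rfl⟩, key j⟩
    · rintro ⟨e, ⟨j, hj, rfl⟩, rfl⟩
      exact ⟨j, hj, (key j).symm⟩
  rw [hE]
  exact (transfer h1 (fun i : Fin M.length => i.val) Fin.val_injective (fun v => by
    simp only [hypOf, List.mem_range]
    exact ⟨fun h => ⟨⟨v, h⟩, rfl⟩, fun ⟨i, hi⟩ => hi ▸ i.2⟩)).symm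

theorem inNPP_recognition (t : ℕ) : InNPP (Recognition t) := by
  obtain ⟨p, hp⟩ := NPC.Poly.sz_le hypOf_poly
  have hp0 := hypOf_poly
  refine inNPP_of (R := fun x : List (List Bool) × List ℕ =>
    (x.1.all fun r => decide (r.length = (x.1.getD 0 []).length)) && certT t (hypOf x.1, x.2))
    ?_ ((Polynomial.X * (Polynomial.X + 1) + 1 : Polynomial ℕ).comp p) fun M => ?_
  · exact NPC.Poly.and (by fun_prop) ((certT_poly t).comp (NPC.Poly.pair
      (hp0.comp (NPC.Poly.fst NPC.Poly.id)) (NPC.Poly.snd NPC.Poly.id)))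
  · rw [recognition_hypOf, cert_iff]
    have hM : (M.all fun r => decide (r.length = (M.getD 0 []).length)) = true ↔ IsMatrix M := by
      unfold IsMatrix width
      simp only [List.all_eq_true, decide_eq_true_eq]
    constructor
    · rintro ⟨h1, w, hw, h2⟩
      refine ⟨w, hw.trans ?_, ?_⟩
      · simp only [Polynomial.eval_comp, Polynomial.eval_add, Polynomial.eval_mul,
          Polynomial.eval_X, Polynomial.eval_one]
        have := hp M
        gcongr
      · simp only [hM.2 h1, h2, Bool.and_self]
    · rintro ⟨w, -, hw⟩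
      simp only [Bool.and_eq_true] at hw
      exact ⟨hM.1 hw.1, (cert_iff t (hypOf M)).1 (cert_sound hw.2)⟩

end Pool.Agent.K3h99.AF
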